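import Mathlib
import Pool.Agent.U839.Rg.Win
import Pool.Agent.U839.Ru.Cand

set_option autoImplicit false

/-! # The number of integers without small prime factors in short intervals -/

open Finset Filter Topology

namespace Pool.Agent.U839.Hl

open Pool.Agent.U839.Thin (tlog)
open Pool.Agent.U839.Sv (W W_pos fT fT_nonneg sum_window)

open Classical in
/-- the number of integers in `(m, m + k]` without prime factors `≤ k` -/
noncomputable def hh (m k : ℕ) : ℕ := ((Ioc m (m + k)).filter (fun n => ∀ p, p.Prime → p ≤ k → ¬ p ∣ n)).card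

/-- the maximum -/
noncomputable def HH (k : ℕ) : ℕ := sSup (Set.range (fun m => hh m k))

theorem hh_le (m k : ℕ) : hh m k ≤ k := by
  classical
  unfold hh
  refine (card_filter_le _ _).trans ?_
  rw [Nat.card_Ioc]
  omega

theorem hh_bdd (k : ℕ) : BddAbove (Set.range (fun m => hh m k)) :=
  ⟨k, by rintro _ ⟨m, rfl⟩; exact hh_le m k⟩

theorem le_HH (m k : ℕ) : hh m k ≤ HH k := le_csSup (hh_bdd k) ⟨m, rfl⟩

theorem HH_att (k : ℕ) : ∃ m, hh m k = HH k := by
  have h : HH k ∈ Set.range (fun m => hh m k) := Nat.sSup_mem ⟨hh 0 k, 0, rfl⟩ (hh_bdd k)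
  exact h

theorem HH_le (k : ℕ) : HH k ≤ k := by
  obtain ⟨m, hm⟩ := HH_att k
  rw [← hm]
  exact hh_le m k

/-- the upper bound sieve -/
theorem HH_sieve : ∃ C : ℝ, 0 < C ∧ ∀ k : ℕ, 2 ≤ k → (HH k : ℝ) * Real.log k ≤ C * k := by
  classical
  have e1 : Tendsto (fun k : ℕ => (k : ℝ) ^ (1 / ((130 : ℕ) : ℝ))) atTop atTop :=
    (tendsto_rpow_atTop (by norm_num)).comp tendsto_natCast_atTop_atTop
  obtain ⟨z, hz⟩ : ∃ z : ℕ → ℕ, z = fun k : ℕ => ⌊(k : ℝ) ^ (1 / ((130 : ℕ) : ℝ))⌋₊ := ⟨_, rfl⟩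
  have hzt : Tendsto z atTop atTop := by
    rw [hz]
    exact tendsto_nat_floor_atTop.comp e1
  have e2 : ∀ᶠ k : ℕ in atTop, (3 : ℝ) ^ 122 * 2 ≤ (k : ℝ) ^ (8 / 130 : ℝ) :=
    ((tendsto_rpow_atTop (by norm_num)).comp tendsto_natCast_atTop_atTop).eventually_ge_atTop _
  have key : ∀ᶠ k : ℕ in atTop, (HH k : ℝ) * Real.log k ≤ 800 * k := by
    filter_upwards [e1.eventually_ge_atTop 2, hzt.eventually Pool.Agent.U839.Rg.W_low, e2,
      eventually_ge_atTop 2, tlog.eventually_ge_atTop (400 * Real.log 2)] with k g1 g2 g3 g4 g5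
    obtain ⟨m, hm⟩ := HH_att k
    obtain ⟨t, ht⟩ : ∃ t, t = z k := ⟨_, rfl⟩
    rw [← ht] at g2
    have hk0 : (0 : ℝ) < k := by
      have : (2 : ℝ) ≤ k := by exact_mod_cast g4
      linarith
    have htu : (t : ℝ) ≤ (k : ℝ) ^ (1 / ((130 : ℕ) : ℝ)) := by
      rw [ht, hz]
      exact Nat.floor_le (by positivity)
    have htl : (k : ℝ) ^ (1 / ((130 : ℕ) : ℝ)) ≤ 2 * t := by
      have h1 : (k : ℝ) ^ (1 / ((130 : ℕ) : ℝ)) < t + 1 := by
        rw [ht, hz]
        exact Nat.lt_floor_add_one _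
      linarith
    have htk : t ≤ k := by
      have h1 : (t : ℝ) ≤ k := by
        refine htu.trans ?_
        calc (k : ℝ) ^ (1 / ((130 : ℕ) : ℝ)) ≤ (k : ℝ) ^ (1 : ℝ) :=
              Real.rpow_le_rpow_of_exponent_le (by linarith [show (2 : ℝ) ≤ k by exact_mod_cast g4]) (by norm_num)
          _ = k := Real.rpow_one _
      exact_mod_cast h1
    have h1 := sum_window 13 le_rfl (fun _ => t) (fun _ _ _ => le_rfl) m k t le_rfl
    have h2 := (abs_le.1 h1).2
    have h3 : (2 : ℝ) ^ 25 * (1 / 2) ^ (2 * 13) = 1 / 2 := by norm_num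
    have h4 : ((t : ℝ) + 2) ^ (8 * 13 + 18) = ((t : ℝ) + 2) ^ 122 := by norm_num
    rw [h3, h4] at h2
    have h5 : ((t : ℝ) + 2) ^ 122 ≤ k / 2 := by
      have k2 : (2 : ℝ) ≤ (k : ℝ) ^ (1 / ((130 : ℕ) : ℝ)) := g1
      calc ((t : ℝ) + 2) ^ 122 ≤ (3 * (k : ℝ) ^ (1 / ((130 : ℕ) : ℝ))) ^ 122 := by
            apply pow_le_pow_left₀ (by positivity)
            linarith
        _ = 3 ^ 122 * (k : ℝ) ^ (122 / 130 : ℝ) := by
            rw [mul_pow, ← Real.rpow_natCast ((k : ℝ) ^ (1 / ((130 : ℕ) : ℝ))) 122, ← Real.rpow_mul hk0.le]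
            norm_num
        _ ≤ ((k : ℝ) ^ (8 / 130 : ℝ) / 2) * (k : ℝ) ^ (122 / 130 : ℝ) := by
            gcongr
            linarith
        _ = k / 2 := by
            have : (k : ℝ) ^ (8 / 130 : ℝ) * (k : ℝ) ^ (122 / 130 : ℝ) = k := by
              rw [← Real.rpow_add hk0]
              norm_num
            linarith
    -- the sum is `W t` times the number
    have h6 : (hh m k : ℝ) * W t ≤ ∑ n ∈ Ioc m (m + k), fT (fun _ => t) n := by
      unfold hh
      rw [← nsmul_eq_mul, ← sum_const, sum_filter]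
      apply sum_le_sum
      intro n _
      unfold fT
      split_ifs with c1 c2
      · exact le_rfl
      · exact absurd (fun p hp hpt => c1 p hp (hpt.trans htk)) c2
      · exact (W_pos t).le
      · exact le_rfl
    have h7 : (hh m k : ℝ) * W t ≤ 2 * k := by linarith
    rw [hm] at h7
    have h8 : Real.log k / 400 ≤ Real.log t := by
      have ht0 : (0 : ℝ) < t := by linarith
      have k1 := Real.log_le_log (by positivity) htl
      rw [Real.log_rpow hk0, Real.log_mul (by norm_num) ht0.ne'] at k1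
      push_cast at k1
      have k2 := Real.log_natCast_nonneg k
      linarith
    have h9 : 0 ≤ (HH k : ℝ) := Nat.cast_nonneg _
    have h10 : (HH k : ℝ) * (Real.log k / 400) ≤ 2 * k := by
      refine le_trans ?_ h7
      apply mul_le_mul_of_nonneg_left _ h9
      linarith
    linarith
  obtain ⟨k₀, hk₀⟩ := eventually_atTop.1 key
  refine ⟨800 + Real.log k₀, ?_, fun k hk => ?_⟩
  · have := Real.log_natCast_nonneg k₀
    linarith
  · have hL0 := Real.log_natCast_nonneg k₀
    have hk0 : (0 : ℝ) < k := by exact_mod_cast (by omega : 0 < k)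
    rcases Nat.lt_or_ge k k₀ with h | h
    · have h1 : (HH k : ℝ) ≤ k := by exact_mod_cast HH_le k
      have h2 : Real.log k ≤ Real.log k₀ := Real.log_le_log hk0 (by exact_mod_cast h.le)
      have h3 := Real.log_natCast_nonneg k
      have h4 : (HH k : ℝ) * Real.log k ≤ k * Real.log k₀ := by gcongr
      nlinarith
    · have := hk₀ k h
      nlinarith

end Pool.Agent.U839.Hl
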