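import Mathlib
import Pool.Agent.Helper355.BrunLow
import Pool.Agent.U839.Hl.Cnt
import Pool.Agent.U839.Rg.Occ
import Pool.Agent.U839.Ru.Upp

set_option autoImplicit false

/-! # Candidates for patterns, by Brun's sieve -/

open Filter Finset Topology

namespace Pool.Agent.U839.Hl

open Pool.Agent.U839.Thin (tlog)
open Pool.Agent.U839.Sv (W W_pos Pr mem_Pr)
open Pool.Agent.U839.Ru (dvd_prim prim_cop)
open Pool.Agent.Helper742 (mean)

/-- sums of `1/p` -/
theorem sum_inv (y t : ℕ) : ∑ p ∈ (Ioc y t).filter Nat.Prime, 1 / (p : ℝ) ≤ Real.log (W t / W y) ∨ t < y := by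
  rcases Nat.lt_or_ge t y with h | h
  · exact Or.inr h
  · left
    have hsub : Pr y ⊆ Pr t := by
      intro p hp
      rw [mem_Pr] at hp ⊢
      exact ⟨hp.1, hp.2.trans h⟩
    have hdiff : Pr t \ Pr y = (Ioc y t).filter Nat.Prime := by
      ext p
      rw [Finset.mem_sdiff, mem_Pr, mem_Pr, mem_filter, mem_Ioc]
      constructor
      · rintro ⟨⟨h1, h2⟩, h3⟩
        refine ⟨⟨?_, h2⟩, h1⟩
        by_contra hcon
        exact h3 ⟨h1, by omega⟩
      · rintro ⟨⟨h1, h2⟩, h3⟩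
        exact ⟨⟨h3, h2⟩, fun h4 => by omega⟩
    have hW : W t / W y = ∏ p ∈ (Ioc y t).filter Nat.Prime, (1 - 1 / (p : ℝ))⁻¹ := by
      rw [div_eq_iff (W_pos y).ne', Pool.Agent.U839.Sv.W_eq t, Pool.Agent.U839.Sv.W_eq y, ← hdiff,
        prod_sdiff hsub]
    have hpos : ∀ p ∈ (Ioc y t).filter Nat.Prime, (0 : ℝ) < 1 - 1 / (p : ℝ) := fun p hp =>
      Pool.Agent.U839.Sv.one_sub_pos (mem_filter.1 hp).2
    rw [hW, Real.log_prod (fun p hp => (inv_pos.2 (hpos p hp)).ne')]
    apply sum_le_sum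
    intro p hp
    rw [Real.log_inv]
    have := Real.log_le_sub_one_of_pos (hpos p hp)
    linarith

/-- one prime -/
theorem mean_le (n₀ M p : ℕ) (hp : p.Prime) (hM : Nat.Coprime M p) (A : Finset ℕ) :
    mean (fun p j => if ∃ a ∈ A, p ∣ n₀ + M * j + a then (1 : ℝ) else 0) p ≤ A.card / p := by
  classical
  unfold mean
  have hp0 : (0 : ℝ) < p := by exact_mod_cast hp.pos
  apply div_le_div_of_nonneg_right _ hp0.le
  rw [← sum_filter, sum_const, nsmul_eq_mul, mul_one]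
  have hsub : (range p).filter (fun j => ∃ a ∈ A, p ∣ n₀ + M * j + a) ⊆
      A.biUnion (fun a => (range p).filter (fun j => p ∣ n₀ + M * j + a)) := by
    intro j hj
    rw [mem_filter] at hj
    obtain ⟨a, ha, hd⟩ := hj.2
    rw [mem_biUnion]
    exact ⟨a, ha, mem_filter.2 ⟨hj.1, hd⟩⟩
  have h1 : (A.biUnion (fun a => (range p).filter (fun j => p ∣ n₀ + M * j + a))).card ≤ A.card * 1 := by
    apply card_biUnion_le_card_mul
    intro a _
    rw [card_le_one]
    intro i hi j hj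
    rw [mem_filter, mem_range] at hi hj
    have h2 : n₀ + a + M * i ≡ n₀ + a + M * j [MOD p] := by
      have e1 : n₀ + a + M * i = n₀ + M * i + a := by ring
      have e2 : n₀ + a + M * j = n₀ + M * j + a := by ring
      rw [e1, e2]
      exact (Nat.modEq_zero_iff_dvd.2 hi.2).trans (Nat.modEq_zero_iff_dvd.2 hj.2).symm
    have h3 := Nat.ModEq.add_left_cancel' _ h2
    have h4 : i ≡ j [MOD p] := Nat.ModEq.cancel_left_of_coprime (by rw [Nat.gcd_comm]; exact hM) h3
    unfold Nat.ModEq at h4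
    rwa [Nat.mod_eq_of_lt hi.1, Nat.mod_eq_of_lt hj.1] at h4
  exact_mod_cast (card_le_card hsub).trans (h1.trans (by rw [mul_one]))

/-- the number of good terms of a progression -/
theorem sieve_low (n₀ M y t' : ℕ) (hM : M = primorial y) (ht' : 1 ≤ t') (A : Finset ℕ) (t : ℕ) (htt : t ≤ t')
    (B lam : ℝ) (hB : 0 ≤ B) (hsum : ∑ p ∈ (Ioc y t).filter Nat.Prime, 1 / (p : ℝ) ≤ B)
    (hlam : lam = A.card * B) (hy : 2 * (A.card : ℝ) ≤ y) (N : ℕ) :
    (N : ℝ) * (Real.exp (-(2 * lam)) / 2) - 3 * Real.exp ((12 * lam + 8) * Real.log t') ≤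
      (((range N).filter (fun j => ∀ a ∈ A, ∀ p ∈ (Ioc y t).filter Nat.Prime, ¬ p ∣ n₀ + M * j + a)).card : ℝ) := by
  classical
  obtain ⟨R, hR⟩ : ∃ R, R = (Ioc y t).filter Nat.Prime := ⟨_, rfl⟩
  rw [← hR] at hsum ⊢
  obtain ⟨u, hu⟩ : ∃ u : ℕ → ℕ → ℝ, u = fun p j => if ∃ a ∈ A, p ∣ n₀ + M * j + a then (1 : ℝ) else 0 := ⟨_, rfl⟩
  have hRp : ∀ p ∈ R, p.Prime ∧ y < p ∧ p ≤ t := by
    intro p hp
    rw [hR, mem_filter, mem_Ioc] at hp
    exact ⟨hp.2, hp.1.1, hp.1.2⟩
  have hlam0 : 0 ≤ lam := by rw [hlam]; positivity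
  have hmean : ∀ p ∈ R, mean u p ≤ A.card / p := by
    intro p hp
    rw [hu]
    exact mean_le n₀ M p (hRp p hp).1 (by rw [hM]; exact prim_cop (hRp p hp).1 (hRp p hp).2.1) A
  have hmean0 : ∀ p ∈ R, 0 ≤ mean u p := by
    intro p hp
    unfold mean
    apply div_nonneg _ (Nat.cast_nonneg _)
    apply sum_nonneg
    intro j _
    rw [hu]
    simp only
    split_ifs <;> norm_num
  have hhalf : ∀ p ∈ R, (A.card : ℝ) / p ≤ 1 / 2 := by
    intro p hp
    have h1 : (y : ℝ) ≤ p := by exact_mod_cast (hRp p hp).2.1.le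
    have h0 : (0 : ℝ) < p := by exact_mod_cast (hRp p hp).1.pos
    rw [div_le_div_iff₀ h0 (by norm_num)]
    linarith
  have hms : ∑ p ∈ R, mean u p ≤ lam := by
    calc ∑ p ∈ R, mean u p ≤ ∑ p ∈ R, (A.card : ℝ) / p := sum_le_sum hmean
      _ = A.card * ∑ p ∈ R, 1 / (p : ℝ) := by
          rw [mul_sum]
          apply sum_congr rfl
          intro p _
          ring
      _ ≤ A.card * B := by gcongr
      _ = lam := hlam.symm
  have hprod : Real.exp (-(2 * lam)) ≤ ∏ p ∈ R, (1 - mean u p) := by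
    have h1 : ∀ p ∈ R, Real.exp (-(2 * (mean u p))) ≤ 1 - mean u p := by
      intro p hp
      have h2 := (hmean p hp).trans (hhalf p hp)
      have h3 := hmean0 p hp
      have h4 : (1 - mean u p) * (1 + 2 * mean u p) ≥ 1 := by nlinarith
      have h5 : 1 + 2 * mean u p ≤ Real.exp (2 * mean u p) := by
        have := Real.add_one_le_exp (2 * mean u p)
        linarith
      rw [Real.exp_neg, inv_le_comm₀ (Real.exp_pos _) (by linarith), ← one_div, div_le_iff₀ (by linarith)]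
      nlinarith
    calc Real.exp (-(2 * lam)) ≤ Real.exp (-(2 * ∑ p ∈ R, mean u p)) := by
          apply Real.exp_le_exp.2
          linarith
      _ = ∏ p ∈ R, Real.exp (-(2 * mean u p)) := by
          rw [← Real.exp_sum]
          congr 1
          rw [mul_sum, ← sum_neg_distrib]
      _ ≤ _ := prod_le_prod (fun _ _ => (Real.exp_pos _).le) h1
  obtain ⟨r, hr⟩ : ∃ r : ℕ, r = 2 * (⌈3 * lam⌉₊ + 1) := ⟨_, rfl⟩
  have hr1 : 6 * lam + 2 ≤ r := by
    rw [hr]
    push_cast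
    have := Nat.le_ceil (3 * lam)
    linarith
  have hr2 : (r : ℝ) ≤ 6 * lam + 4 := by
    rw [hr]
    push_cast
    have := Nat.ceil_lt_add_one (show 0 ≤ 3 * lam by positivity)
    linarith
  have hmain := Pool.Agent.Helper355.Run.brun_low R t' r ht' ⟨⌈3 * lam⌉₊ + 1, by rw [hr]; ring⟩
    (fun p hp => ⟨(hRp p hp).1, (hRp p hp).2.2.trans htt⟩) u
    (fun p _ n => by rw [hu]; simp only; split_ifs <;> norm_num)
    (fun p _ n => by rw [hu]; simp only; split_ifs <;> norm_num)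
    (fun p hp n => by
      rw [hu]
      simp only
      have h1 : ∀ a, (p ∣ n₀ + M * (n % p) + a ↔ p ∣ n₀ + M * n + a) := by
        intro a
        have h2 : n₀ + M * (n % p) + a ≡ n₀ + M * n + a [MOD p] :=
          (((Nat.mod_modEq n p).mul_left M).add_left n₀).add_right a
        exact h2.dvd_iff dvd_rfl
      simp only [h1]) (Real.exp 1) (Real.exp_pos 1) N
  have hE : ((Real.exp 1)⁻¹) ^ r * Real.exp (Real.exp 1 * ∑ p ∈ R, mean u p) ≤ Real.exp (-(2 * lam)) / 2 := by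
    have he : Real.exp 1 ≤ 3 := by
      have := Real.exp_one_lt_d9
      linarith
    have h1 : ((Real.exp 1)⁻¹) ^ r = Real.exp (-(r : ℝ)) := by
      rw [← Real.exp_neg, ← Real.exp_nat_mul]
      congr 1
      ring
    have h2 : Real.exp 1 * ∑ p ∈ R, mean u p ≤ 3 * lam := by
      have h3 : 0 ≤ ∑ p ∈ R, mean u p := sum_nonneg hmean0
      calc Real.exp 1 * ∑ p ∈ R, mean u p ≤ 3 * ∑ p ∈ R, mean u p := by gcongr
        _ ≤ 3 * lam := by gcongr
    rw [h1, ← Real.exp_add]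
    have h4 : Real.exp (-(r : ℝ) + Real.exp 1 * ∑ p ∈ R, mean u p) ≤ Real.exp (-(2 * lam) + -1) := by
      apply Real.exp_le_exp.2
      linarith
    refine h4.trans ?_
    rw [Real.exp_add, div_eq_mul_inv]
    apply mul_le_mul_of_nonneg_left _ (Real.exp_pos _).le
    rw [Real.exp_neg]
    apply inv_anti₀ (by norm_num)
    have := Real.add_one_le_exp (1 : ℝ)
    linarith
  have hpw : 3 * (t' : ℝ) ^ (2 * r) ≤ 3 * Real.exp ((12 * lam + 8) * Real.log t') := by
    have ht0 : (0 : ℝ) < t' := by exact_mod_cast ht'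
    have hl : 0 ≤ Real.log t' := Real.log_natCast_nonneg _
    rw [← Real.rpow_natCast, Real.rpow_def_of_pos ht0, mul_comm (Real.log (t' : ℝ))]
    push_cast
    gcongr
    linarith
  have hsumeq : ∑ n ∈ range N, ∏ p ∈ R, (1 - u p n) =
      (((range N).filter (fun j => ∀ a ∈ A, ∀ p ∈ R, ¬ p ∣ n₀ + M * j + a)).card : ℝ) := by
    rw [card_eq_sum_ones, Nat.cast_sum, sum_filter]
    apply sum_congr rfl
    intro j _
    rw [hu]
    simp only [Nat.cast_one]
    split_ifs with h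
    · apply prod_eq_one
      intro p hp
      rw [if_neg, sub_zero]
      rintro ⟨a, ha, hd⟩
      exact h a ha p hp hd
    · push Not at h
      obtain ⟨a, ha, p, hp, hd⟩ := h
      apply prod_eq_zero hp
      rw [if_pos ⟨a, ha, hd⟩, sub_self]
  rw [hsumeq] at hmain
  have hN0 : (0 : ℝ) ≤ N := Nat.cast_nonneg _
  have h7 : (N : ℝ) * (Real.exp (-(2 * lam)) / 2) ≤
      N * (∏ p ∈ R, (1 - mean u p) - ((Real.exp 1)⁻¹) ^ r * Real.exp (Real.exp 1 * ∑ p ∈ R, mean u p)) := by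
    gcongr
    linarith
  linarith

end Pool.Agent.U839.Hl
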