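import Mathlib
import Pool.Agent.U839.Hl.Brun
import Pool.Agent.U839.Ru.Asy

set_option autoImplicit false

/-! # Candidates for patterns: asymptotics -/

open Filter Finset Topology

namespace Pool.Agent.U839.Hl

open Pool.Agent.U839.Thin (tlog)
open Pool.Agent.U839.Fb (tloglog)
open Pool.Agent.U839.Sv (W W_pos)
open Pool.Agent.U839.Ru (dvd_prim prim_cop mul_exp)

theorem start (X M r : ℕ) (hM : 0 < M) : ∃ n₀, X < n₀ ∧ n₀ ≤ X + M ∧ n₀ ≡ r [MOD M] := by
  refine ⟨X + 1 + (r + (M - 1) * (X + 1)) % M, by omega, ?_, ?_⟩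
  · have := Nat.mod_lt (r + (M - 1) * (X + 1)) hM
    omega
  · have h1 : X + 1 + (r + (M - 1) * (X + 1)) % M ≡ X + 1 + (r + (M - 1) * (X + 1)) [MOD M] :=
      (Nat.mod_modEq _ _).add_left _
    refine h1.trans ?_
    have h2 : X + 1 + (r + (M - 1) * (X + 1)) = r + M * (X + 1) := by
      obtain ⟨m, rfl⟩ : ∃ m, M = m + 1 := ⟨M - 1, by omega⟩
      rw [Nat.add_sub_cancel]
      ring
    rw [h2]
    exact Nat.modEq_iff_dvd.2 ⟨-(X + 1 : ℤ), by push_cast; ring⟩

set_option maxHeartbeats 4000000 in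
theorem cnd (θ : ℝ) (hθ : 0 < θ) : ∃ c : ℝ, 0 < c ∧ c ≤ 1 / 100 ∧ ∀ᶠ X : ℕ in atTop, ∀ t : ℕ,
    (t : ℝ) ≤ (2 * Real.log X) ^ θ → ∀ A : Finset ℕ, (A.card : ℝ) * Real.log (2 * Real.log X) ≤ c * Real.log X →
    ∀ r : ℕ, (∀ a ∈ A, ∀ p, p.Prime → p ≤ ⌊Real.log X / 8⌋₊ → ¬ p ∣ r + a) →
    ∃ S : Finset ℕ, S ⊆ Ioc X (X + X) ∧ (∀ n ∈ S, ∀ a ∈ A, ∀ p, p.Prime → p ≤ t → ¬ p ∣ n + a) ∧
      Real.exp (1 / 2 * Real.log X) ≤ S.card := by
  classical
  obtain ⟨C, hC, hW⟩ := Pool.Agent.U839.Sv.W_bound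
  obtain ⟨B, hB⟩ : ∃ B, B = 2 * C * (1 + θ) := ⟨_, rfl⟩
  have hB0 : 0 < B := by rw [hB]; positivity
  refine ⟨min (1 / 100) (min (1 / (200 * B)) (1 / (240 * B * θ))), by positivity, min_le_left _ _, ?_⟩
  obtain ⟨c, hc⟩ : ∃ c, c = min (1 / 100 : ℝ) (min (1 / (200 * B)) (1 / (240 * B * θ))) := ⟨_, rfl⟩
  rw [← hc]
  have hc0 : 0 < c := by rw [hc]; positivity
  have hc1 : c ≤ 1 / 100 := by rw [hc]; exact min_le_left _ _
  have hc2 : c * (200 * B) ≤ 1 := by
    have h1 : c ≤ 1 / (200 * B) := by rw [hc]; exact (min_le_right _ _).trans (min_le_left _ _)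
    rwa [le_div_iff₀ (by positivity)] at h1
  have hc3 : c * (240 * B * θ) ≤ 1 := by
    have h1 : c ≤ 1 / (240 * B * θ) := by rw [hc]; exact (min_le_right _ _).trans (min_le_right _ _)
    rwa [le_div_iff₀ (by positivity)] at h1
  have hy : Tendsto (fun X : ℕ => ⌊Real.log X / 8⌋₊) atTop atTop :=
    tendsto_nat_floor_atTop.comp (tlog.atTop_div_const (by norm_num))
  filter_upwards [hy.eventually Pool.Agent.U839.Rg.W_low, tlog.eventually_ge_atTop 1000,
    tloglog.eventually (mul_exp (640 * θ) 1 one_pos), tloglog.eventually_ge_atTop (4 * Real.log 16),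
    hy.eventually_ge_atTop 2]
    with X g1 g2 g3 g4 g5 t ht A hA r hr
  obtain ⟨L, hL⟩ : ∃ L, L = Real.log X := ⟨_, rfl⟩
  rw [← hL] at g1 g2 g3 g4 g5 ht hA hr ⊢
  have hL0 : 0 < L := by linarith
  have hX0 : (0 : ℝ) < X := by
    rcases Nat.eq_zero_or_pos X with h | h
    · rw [h, Nat.cast_zero, Real.log_zero] at hL
      linarith
    · exact_mod_cast h
  have hXL : (X : ℝ) = Real.exp L := by rw [hL, Real.exp_log hX0]
  rw [one_mul, Real.exp_log hL0] at g3
  obtain ⟨l, hl⟩ : ∃ l, l = Real.log (2 * L) := ⟨_, rfl⟩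
  have hl1 : Real.log L ≤ l := by rw [hl]; exact Real.log_le_log hL0 (by linarith)
  have hl2 : l ≤ 2 * Real.log L := by
    rw [hl, Real.log_mul (by norm_num) hL0.ne']
    have h2 : Real.log 2 ≤ Real.log L := Real.log_le_log (by norm_num) (by linarith)
    linarith
  have h16 : (2.7 : ℝ) ≤ Real.log 16 := by
    rw [show (16 : ℝ) = 2 ^ 4 by norm_num, Real.log_pow]
    have := Real.log_two_gt_d9
    push_cast
    linarith
  have hl3 : 1 ≤ l := by linarith
  rw [← hl] at hA
  obtain ⟨y, hy'⟩ : ∃ y, y = ⌊L / 8⌋₊ := ⟨_, rfl⟩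
  rw [← hy'] at g1 g5 hr
  have hy1 : (y : ℝ) ≤ L / 8 := by rw [hy']; exact Nat.floor_le (by positivity)
  have hy2 : L / 8 - 1 < y := by
    rw [hy']
    have := Nat.lt_floor_add_one (L / 8)
    linarith
  have hy3 : L / 16 ≤ y := by linarith
  have hly : l / 2 ≤ Real.log y := by
    have h1 : Real.log (L / 16) ≤ Real.log y := Real.log_le_log (by positivity) hy3
    rw [Real.log_div hL0.ne' (by norm_num)] at h1
    have h2 : l ≤ Real.log L + 0.7 := by
      rw [hl, Real.log_mul (by norm_num) hL0.ne']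
      have := Real.log_two_lt_d9
      linarith
    linarith
  -- the bound for the sum
  have hsum : ∑ p ∈ (Ioc y t).filter Nat.Prime, 1 / (p : ℝ) ≤ B := by
    rcases sum_inv y t with h | h
    · refine h.trans ?_
      have hWy : l / 2 ≤ W y := hly.trans g1
      have hlt : Real.log t ≤ θ * l := by
        rcases Nat.eq_zero_or_pos t with h0 | h0
        · rw [h0, Nat.cast_zero, Real.log_zero]; positivity
        · have h1 : Real.log t ≤ Real.log ((2 * L) ^ θ) :=
            Real.log_le_log (by exact_mod_cast h0) ht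
          rwa [Real.log_rpow (by positivity), ← hl] at h1
      have h2 : W t ≤ C + C * (θ * l) := (hW t).trans (by gcongr)
      have h3 : W t / W y ≤ B := by
        rw [div_le_iff₀ (W_pos y)]
        calc W t ≤ C + C * (θ * l) := h2
          _ ≤ C * l + C * (θ * l) := by nlinarith
          _ = B * (l / 2) := by rw [hB]; ring
          _ ≤ B * W y := by gcongr
      have h4 := Real.log_le_sub_one_of_pos (div_pos (W_pos t) (W_pos y))
      linarith
    · rw [Finset.Ioc_eq_empty (by omega), filter_empty, sum_empty]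
      exact hB0.le
  -- the modulus
  obtain ⟨M, hM⟩ : ∃ M, M = primorial y := ⟨_, rfl⟩
  have hMp : 0 < M := by rw [hM]; exact primorial_pos y
  have hM0 : (0 : ℝ) < M := by exact_mod_cast hMp
  have hMX : (M : ℝ) ≤ Real.exp (L / 5) := by
    have h1 : (M : ℝ) ≤ (4 : ℝ) ^ y := by
      rw [hM]
      exact_mod_cast primorial_le_four_pow y
    refine h1.trans ?_
    rw [← Real.rpow_natCast, Real.rpow_def_of_pos (by norm_num)]
    apply Real.exp_le_exp.2
    have h4 : Real.log 4 ≤ 1.4 := by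
      rw [show (4 : ℝ) = 2 ^ 2 by norm_num, Real.log_pow]
      have := Real.log_two_lt_d9
      push_cast
      linarith
    have h5 : 0 ≤ Real.log 4 := Real.log_nonneg (by norm_num)
    nlinarith
  obtain ⟨n₀, hn1, hn2, hn3⟩ := start X M r hMp
  obtain ⟨N, hN⟩ : ∃ N, N = X / M := ⟨_, rfl⟩
  have hNM : N * M ≤ X := by rw [hN]; exact Nat.div_mul_le_self X M
  have hN1 : Real.exp (4 / 5 * L) - 1 ≤ N := by
    have h1 : (X : ℝ) < ((N : ℝ) + 1) * M := by
      have h2 : X < (N + 1) * M := by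
        have h3 := Nat.div_add_mod X M
        have h4 := Nat.mod_lt X hMp
        rw [hN]
        calc X = M * (X / M) + X % M := h3.symm
          _ < M * (X / M) + M := by omega
          _ = (X / M + 1) * M := by ring
      exact_mod_cast h2
    have h3 : Real.exp (4 / 5 * L) * Real.exp (L / 5) = X := by
      rw [← Real.exp_add, hXL]
      congr 1
      ring
    have h4 : Real.exp (4 / 5 * L) * Real.exp (L / 5) ≤ ((N : ℝ) + 1) * Real.exp (L / 5) := by
      rw [h3]
      refine h1.le.trans ?_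
      gcongr
    have h5 := le_of_mul_le_mul_right h4 (Real.exp_pos _)
    linarith
  -- the parameters
  obtain ⟨lam, hlam⟩ : ∃ lam, lam = A.card * B := ⟨_, rfl⟩
  have hcard0 : (0 : ℝ) ≤ A.card := Nat.cast_nonneg _
  have hcardL : (A.card : ℝ) ≤ c * L := by
    calc (A.card : ℝ) = A.card * 1 := (mul_one _).symm
      _ ≤ A.card * l := mul_le_mul_of_nonneg_left hl3 hcard0
      _ ≤ c * L := hA
  have hlam2 : 2 * lam ≤ L / 100 := by
    rw [hlam]
    calc 2 * (A.card * B) ≤ 2 * (c * L * B) :=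
          mul_le_mul_of_nonneg_left (mul_le_mul_of_nonneg_right hcardL hB0.le) (by norm_num)
      _ = (c * (200 * B)) * (L / 100) := by ring
      _ ≤ 1 * (L / 100) := by gcongr
      _ = L / 100 := one_mul _
  have hlam0 : 0 ≤ lam := by
    rw [hlam]
    exact mul_nonneg hcard0 hB0.le
  have hycard : 2 * (A.card : ℝ) ≤ y := by
    have h1 : c * L ≤ 1 / 100 * L := by gcongr
    linarith
  have hlt' : Real.log ((max t 1 : ℕ) : ℝ) ≤ θ * l := by
    have h0 : (1 : ℝ) ≤ (2 * L) ^ θ := Real.one_le_rpow (by linarith) hθ.le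
    have h1 : ((max t 1 : ℕ) : ℝ) ≤ (2 * L) ^ θ := by
      push_cast
      exact max_le ht h0
    have h2 : (0 : ℝ) < ((max t 1 : ℕ) : ℝ) := by
      have : 0 < max t 1 := by omega
      exact_mod_cast this
    have h3 := Real.log_le_log h2 h1
    rwa [Real.log_rpow (by positivity), ← hl] at h3
  have hexp : (12 * lam + 8) * Real.log ((max t 1 : ℕ) : ℝ) ≤ L / 10 := by
    have h1 : (12 * lam + 8) * Real.log ((max t 1 : ℕ) : ℝ) ≤ (12 * lam + 8) * (θ * l) := by gcongr
    have h2 : 12 * lam * (θ * l) ≤ L / 20 := by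
      have h3 : 12 * lam * (θ * l) = 12 * B * θ * (A.card * l) := by rw [hlam]; ring
      rw [h3]
      calc 12 * B * θ * (A.card * l) ≤ 12 * B * θ * (c * L) := by gcongr
        _ = (c * (240 * B * θ)) * (L / 20) := by ring
        _ ≤ 1 * (L / 20) := by gcongr
        _ = L / 20 := one_mul _
    have h4 : 8 * (θ * l) ≤ L / 20 := by
      have h5 : 8 * (θ * l) ≤ 16 * θ * Real.log L := by nlinarith
      linarith
    linarith
  have hmain := sieve_low n₀ M y (max t 1) hM (le_max_right _ _) A t (le_max_left _ _) B lam hB0.le hsum hlam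
    hycard N
  obtain ⟨J, hJ⟩ : ∃ J, J = (range N).filter (fun j => ∀ a ∈ A, ∀ p ∈ (Ioc y t).filter Nat.Prime,
    ¬ p ∣ n₀ + M * j + a) := ⟨_, rfl⟩
  rw [← hJ] at hmain
  refine ⟨J.image (fun j => n₀ + M * j), ?_, ?_, ?_⟩
  · intro n hn
    rw [mem_image] at hn
    obtain ⟨j, hj, rfl⟩ := hn
    rw [hJ, mem_filter, mem_range] at hj
    rw [mem_Ioc]
    refine ⟨by omega, ?_⟩
    have h1 : M * j + M ≤ M * N := by
      have : j + 1 ≤ N := hj.1
      calc M * j + M = M * (j + 1) := by ring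
        _ ≤ M * N := Nat.mul_le_mul_left M this
    have h2 : M * N ≤ X := by rw [mul_comm]; exact hNM
    omega
  · intro n hn a ha p hp hpt hdvd
    rw [mem_image] at hn
    obtain ⟨j, hj, rfl⟩ := hn
    rw [hJ, mem_filter] at hj
    rcases Nat.lt_or_ge y p with h | h
    · exact hj.2 a ha p (by rw [mem_filter, mem_Ioc]; exact ⟨⟨h, hpt⟩, hp⟩) hdvd
    · apply hr a ha p hp h
      have h1 : n₀ + M * j ≡ r [MOD M] := by
        have : n₀ + M * j ≡ n₀ [MOD M] := Nat.modEq_iff_dvd.2 ⟨-(j : ℤ), by push_cast; ring⟩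
        exact this.trans hn3
      have h2 : n₀ + M * j ≡ r [MOD p] := h1.of_dvd (by rw [hM]; exact dvd_prim hp h)
      exact ((h2.add_right a).dvd_iff dvd_rfl).1 hdvd
  · rw [card_image_of_injective _ (fun i j hij => by
      have h1 : M * i = M * j := Nat.add_left_cancel hij
      exact Nat.eq_of_mul_eq_mul_left hMp h1)]
    refine le_trans ?_ hmain
    have e1 : Real.exp (-(L / 100)) ≤ Real.exp (-(2 * lam)) := Real.exp_le_exp.2 (by linarith)
    have e2 : Real.exp ((12 * lam + 8) * Real.log ((max t 1 : ℕ) : ℝ)) ≤ Real.exp (1 / 2 * L) :=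
      Real.exp_le_exp.2 (by linarith)
    have e3 : Real.exp (3 / 4 * L) ≤ N := by
      have h1 : Real.exp (3 / 4 * L) * 2 ≤ Real.exp (4 / 5 * L) := by
        have h2 : Real.exp (4 / 5 * L) = Real.exp (3 / 4 * L) * Real.exp (1 / 20 * L) := by
          rw [← Real.exp_add]
          congr 1
          ring
        have h3 := Real.add_one_le_exp (1 / 20 * L)
        rw [h2]
        gcongr
        linarith
      have h4 := Real.add_one_le_exp (3 / 4 * L)
      linarith
    have e4 : Real.exp (3 / 4 * L) * (Real.exp (-(L / 100)) / 2) ≤ N * (Real.exp (-(2 * lam)) / 2) := by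
      gcongr
    have e5 : Real.exp (3 / 4 * L) * (Real.exp (-(L / 100)) / 2) = Real.exp (1 / 2 * L) *
        (Real.exp (24 / 100 * L) / 2) := by
      have h1 : Real.exp (3 / 4 * L) * Real.exp (-(L / 100)) = Real.exp (1 / 2 * L) * Real.exp (24 / 100 * L) := by
        rw [← Real.exp_add, ← Real.exp_add]
        congr 1
        ring
      linarith
    have e6 := Real.add_one_le_exp (24 / 100 * L)
    have e7 : (4 : ℝ) ≤ Real.exp (24 / 100 * L) / 2 := by linarith
    have e8 : Real.exp (1 / 2 * L) * 4 ≤ Real.exp (1 / 2 * L) * (Real.exp (24 / 100 * L) / 2) := by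
      gcongr
    linarith

end Pool.Agent.U839.Hl
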