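import Mathlib
import Pool.Agent.U839.Hl.Cnt
import Pool.Agent.U839.Rg.Occ
import Pool.Agent.U839.Ru.Upp

set_option autoImplicit false

/-! # Patterns in random models -/

open MeasureTheory ProbabilityTheory Filter Finset Topology

namespace Pool.Agent.U839.Hl

open Pool.Agent.U839.Thin (tlog none_complete)
open Pool.Agent.U839.Sv (W W_pos fT fT_nonneg Sieved law')
open Pool.Agent.U839.Rg (fT_one)
open Pool.Agent.U839.Ru (count_class prim_le dvd_prim prim_cop log_small sifted)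

variable {Ω : Type*} [MeasurableSpace Ω] {μ : Measure Ω} [IsProbabilityMeasure μ]

set_option maxHeartbeats 4000000 in
/-- a pattern occurs with large probability -/
theorem pat (T : ℕ → ℕ) (hT : Monotone T) (δ : ℝ) (hδ : 0 < δ) (hδ1 : δ < 1)
    (hTs : ∀ ε : ℝ, 0 < ε → ∀ᶠ n : ℕ in atTop, (T n : ℝ) ≤ (n : ℝ) ^ ε)
    (hT1 : ∀ᶠ n : ℕ in atTop, (T n : ℝ) ≤ (1 - δ) * Real.log n)
    {E : ℕ → Set Ω} (h : Sieved μ E T) :
    ∀ᶠ X : ℕ in atTop, ∀ k : ℕ, (k : ℝ) ≤ Real.log X → ∀ A : Finset ℕ, A ⊆ Icc 1 k →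
      (A.card : ℝ) * Real.log (2 * Real.log X) ≤ δ / 10 * Real.log X → ∀ r : ℕ,
      (∀ a ∈ A, ∀ p, p.Prime → p ≤ T (3 * X) → ¬ p ∣ r + a) →
      μ.real {ω | ¬ ∃ n, X < n ∧ n ≤ X + X ∧ ∀ a ∈ A, ω ∈ E (n + a)} ≤ Real.exp (-(X : ℝ) ^ (δ / 10)) := by
  classical
  obtain ⟨C, hC, H⟩ := prim_le (δ / 2) (by positivity)
  have h3m : Tendsto (fun x : ℕ => 3 * x) atTop atTop := tendsto_id.const_mul_atTop' (by norm_num)
  obtain ⟨n₀, hn₀⟩ := eventually_atTop.1 (law' h hTs)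
  have e1 : ∀ᶠ x : ℕ in atTop, (4 : ℝ) ≤ (x : ℝ) ^ (δ / 120) :=
    ((tendsto_rpow_atTop (by positivity)).comp tendsto_natCast_atTop_atTop).eventually_ge_atTop _
  filter_upwards [h3m.eventually hT1, tlog.eventually_ge_atTop ((C + 2) * (6 / δ)), e1,
    log_small 1 (δ / 24) (by positivity), tlog.eventually_ge_atTop 2, eventually_ge_atTop 4,
    eventually_ge_atTop n₀] with X g1 g2 g3 g4 g5 g6 g7 k hk A hA hAc r hr
  obtain ⟨L, hL⟩ : ∃ L, L = Real.log X := ⟨_, rfl⟩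
  rw [← hL] at g2 g4 g5 hk hAc
  have hX4 : (4 : ℝ) ≤ X := by exact_mod_cast g6
  have hX0 : (0 : ℝ) < X := by linarith
  have hL0 : 0 < L := by linarith
  obtain ⟨t, ht⟩ : ∃ t, t = T (3 * X) := ⟨_, rfl⟩
  rw [← ht] at g1 hr
  obtain ⟨M, hM⟩ : ∃ M, M = primorial t := ⟨_, rfl⟩
  have hMp : 0 < M := by rw [hM]; exact primorial_pos t
  have hM0 : (0 : ℝ) < M := by exact_mod_cast hMp
  -- the modulus
  have hMX : (M : ℝ) ≤ (X : ℝ) ^ (1 - δ / 3) := by
    rw [← Real.log_le_log_iff hM0 (by positivity), Real.log_rpow hX0, ← hL, hM]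
    have h1 := H t
    have h2 : (t : ℝ) ≤ (1 - δ) * (L + 2) := by
      refine g1.trans ?_
      apply mul_le_mul_of_nonneg_left _ (by linarith)
      push_cast
      rw [Real.log_mul (by norm_num) hX0.ne', ← hL]
      have h3 : Real.log 3 ≤ 2 := by
        have := Real.log_le_sub_one_of_pos (show (0 : ℝ) < 3 by norm_num)
        linarith
      linarith
    have h3 : (1 + δ / 2) * (t : ℝ) ≤ (1 + δ / 2) * ((1 - δ) * (L + 2)) := by gcongr
    have h4 : (1 + δ / 2) * ((1 - δ) * (L + 2)) ≤ (1 - δ / 2) * (L + 2) := by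
      have : (1 + δ / 2) * (1 - δ) ≤ 1 - δ / 2 := by nlinarith
      calc (1 + δ / 2) * ((1 - δ) * (L + 2)) = ((1 + δ / 2) * (1 - δ)) * (L + 2) := by ring
        _ ≤ _ := by gcongr
    have h5 : C + 2 ≤ δ / 6 * L := by
      have h6 : (C + 2) * (6 / δ) * (δ / 6) = C + 2 := by field_simp
      nlinarith
    nlinarith
  have hMX' : (X : ℝ) ^ (δ / 3) ≤ X / M := by
    rw [le_div_iff₀ hM0]
    calc (X : ℝ) ^ (δ / 3) * M ≤ (X : ℝ) ^ (δ / 3) * (X : ℝ) ^ (1 - δ / 3) := by gcongr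
      _ = X := by
          rw [← Real.rpow_add hX0]
          norm_num
  -- the candidates
  obtain ⟨S₀, hS₀⟩ : ∃ S₀, S₀ = (Ioc X (X + X)).filter (fun n => n ≡ r [MOD M]) := ⟨_, rfl⟩
  have hc0 := (count_class X M r hMp).1
  rw [← hS₀] at hc0
  obtain ⟨s, hs⟩ := Pool.Agent.U839.Thin.residue S₀ (k + 1) (Nat.succ_pos _)
  obtain ⟨S, hS⟩ : ∃ S, S = S₀.filter (fun n => n % (k + 1) = s) := ⟨_, rfl⟩
  rw [← hS] at hs
  have hcard : (X : ℝ) ^ (δ / 4) ≤ S.card := by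
    have h1 : (S₀.card : ℝ) ≤ ((k : ℝ) + 1) * S.card := by exact_mod_cast hs
    have h2 : (X : ℝ) ^ (δ / 3) / 2 ≤ S₀.card := by
      have h3 : (2 : ℝ) ≤ (X : ℝ) ^ (δ / 3) := by
        calc (2 : ℝ) ≤ 4 := by norm_num
          _ ≤ (X : ℝ) ^ (δ / 120) := g3
          _ ≤ (X : ℝ) ^ (δ / 3) := Real.rpow_le_rpow_of_exponent_le (by linarith) (by linarith)
      linarith
    have h3 : (X : ℝ) ^ (δ / 3) / 2 ≤ (X : ℝ) ^ (δ / 24) * S.card := by
      refine h2.trans (h1.trans ?_)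
      gcongr
      linarith
    have h4 : (X : ℝ) ^ (δ / 3) = (X : ℝ) ^ (δ / 24) * ((X : ℝ) ^ (δ / 4) * (X : ℝ) ^ (δ / 24)) := by
      rw [← Real.rpow_add hX0, ← Real.rpow_add hX0]
      congr 1
      ring
    have h5 : (2 : ℝ) ≤ (X : ℝ) ^ (δ / 24) := by
      calc (2 : ℝ) ≤ 4 := by norm_num
        _ ≤ (X : ℝ) ^ (δ / 120) := g3
        _ ≤ (X : ℝ) ^ (δ / 24) := Real.rpow_le_rpow_of_exponent_le (by linarith) (by linarith)
    have h6 : 0 < (X : ℝ) ^ (δ / 24) := by positivity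
    have h7 : 0 < (X : ℝ) ^ (δ / 4) := by positivity
    rw [h4, mul_div_assoc] at h3
    have h8 := le_of_mul_le_mul_left h3 h6
    nlinarith
  -- the sets
  have hdisj : ∀ i ∈ S, ∀ j ∈ S, i ≠ j → Disjoint (A.image (fun a => i + a)) (A.image (fun a => j + a)) := by
    intro i hi j hj hij
    rw [hS, mem_filter] at hi hj
    rw [Finset.disjoint_left]
    intro m hm1 hm2
    rw [mem_image] at hm1 hm2
    obtain ⟨a, ha, rfl⟩ := hm1
    obtain ⟨b, hb, hab⟩ := hm2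
    have ha1 := mem_Icc.1 (hA ha)
    have hb1 := mem_Icc.1 (hA hb)
    have h5 : i ≡ j [MOD (k + 1)] := by
      unfold Nat.ModEq
      rw [hi.2, hj.2]
    rcases Nat.lt_or_gt_of_ne hij with h6 | h6
    · have h7 := (Nat.modEq_iff_dvd' h6.le).1 h5
      have h8 := Nat.le_of_dvd (by omega) h7
      omega
    · have h7 := (Nat.modEq_iff_dvd' h6.le).1 h5.symm
      have h8 := Nat.le_of_dvd (by omega) h7
      omega
  have hmain := none_complete (μ := μ) h.meas h.indep S (fun i => A.image (fun a => i + a)) hdisj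
  have hkX : k ≤ X := by
    have : (k : ℝ) ≤ X := by
      refine hk.trans ?_
      rw [hL]
      have := Real.log_le_sub_one_of_pos hX0
      linarith
    exact_mod_cast this
  -- the probability
  have hprob : ∀ i ∈ S, (X : ℝ) ^ (-(δ / 10)) ≤ ∏ p ∈ A.image (fun a => i + a), μ.real (E p) := by
    intro i hi
    rw [hS, mem_filter, hS₀, mem_filter, mem_Ioc] at hi
    rw [prod_image (fun a _ b _ hab => Nat.add_left_cancel hab)]
    have h1 : ∀ a ∈ A, 1 / (2 * L) ≤ μ.real (E (i + a)) := by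
      intro a ha
      have ha1 := mem_Icc.1 (hA ha)
      rw [hn₀ (i + a) (by omega)]
      have hm0 : (X : ℝ) ≤ ((i + a : ℕ) : ℝ) := by exact_mod_cast (by omega : X ≤ i + a)
      have hm3 : ((i + a : ℕ) : ℝ) ≤ 3 * X := by exact_mod_cast (by omega : i + a ≤ 3 * X)
      have hl1 : L ≤ Real.log ((i + a : ℕ) : ℝ) := by rw [hL]; exact Real.log_le_log hX0 hm0
      have hl2 : Real.log ((i + a : ℕ) : ℝ) ≤ 2 * L := by
        calc Real.log ((i + a : ℕ) : ℝ) ≤ Real.log (X * X) := Real.log_le_log (by linarith) (by nlinarith)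
          _ = 2 * L := by rw [Real.log_mul hX0.ne' hX0.ne', hL]; ring
      have h4 : 1 ≤ fT T (i + a) := by
        refine fT_one (t := t) (by rw [ht]; exact hT (by omega)) (fun p hp hpt hdvd => ?_)
        apply hr a ha p hp hpt
        have h5 : i ≡ r [MOD p] := hi.1.2.of_dvd (by rw [hM]; exact dvd_prim hp hpt)
        exact ((h5.add_right a).dvd_iff dvd_rfl).1 hdvd
      rw [div_le_div_iff₀ (by positivity) (by linarith)]
      nlinarith
    have e : (1 / (2 * L)) ^ A.card = Real.exp (-(A.card * Real.log (2 * L))) := by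
      rw [← Real.rpow_natCast (1 / (2 * L)), Real.rpow_def_of_pos (by positivity), one_div, Real.log_inv]
      congr 1
      ring
    calc (X : ℝ) ^ (-(δ / 10)) ≤ (1 / (2 * L)) ^ A.card := by
          rw [e, Real.rpow_def_of_pos hX0, ← hL]
          apply Real.exp_le_exp.2
          linarith
      _ = ∏ a ∈ A, 1 / (2 * L) := by rw [prod_const]
      _ ≤ ∏ a ∈ A, μ.real (E (i + a)) := prod_le_prod (fun _ _ => by positivity) h1
  have hsub : {ω | ¬ ∃ n, X < n ∧ n ≤ X + X ∧ ∀ a ∈ A, ω ∈ E (n + a)} ⊆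
      ⋂ i ∈ S, (⋂ p ∈ A.image (fun a => i + a), E p)ᶜ := by
    intro ω hω
    rw [Set.mem_iInter₂]
    intro i hi hcon
    apply hω
    have hi1 := hi
    rw [hS, mem_filter, hS₀, mem_filter, mem_Ioc] at hi1
    refine ⟨i, hi1.1.1.1, hi1.1.1.2, fun a ha => ?_⟩
    rw [Set.mem_iInter₂] at hcon
    exact hcon (i + a) (mem_image_of_mem _ ha)
  refine (measureReal_mono hsub (measure_ne_top _ _)).trans (hmain.trans ?_)
  apply Real.exp_le_exp.2
  rw [neg_le_neg_iff]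
  calc (X : ℝ) ^ (δ / 10) ≤ (X : ℝ) ^ (δ / 4 - δ / 10) :=
        Real.rpow_le_rpow_of_exponent_le (by linarith) (by linarith)
    _ = (X : ℝ) ^ (δ / 4) * (X : ℝ) ^ (-(δ / 10)) := by
        rw [← Real.rpow_add hX0]
        congr 1
    _ ≤ S.card * (X : ℝ) ^ (-(δ / 10)) := by gcongr
    _ = ∑ i ∈ S, (X : ℝ) ^ (-(δ / 10)) := by rw [sum_const, nsmul_eq_mul]
    _ ≤ _ := sum_le_sum hprob

/-- the sum of the probabilities -/
theorem exp_summable (β : ℝ) (hβ : 0 < β) : Summable (fun x : ℕ => (x : ℝ) * Real.exp (-(x : ℝ) ^ β)) := by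
  obtain ⟨k, hk⟩ := exists_nat_gt (3 / β)
  have hk' : 3 < β * k := by
    rw [div_lt_iff₀ hβ] at hk
    linarith
  have hs : Summable (fun x : ℕ => (k.factorial : ℝ) * (1 / (x : ℝ) ^ (β * k - 1))) := by
    apply Summable.mul_left
    exact (Real.summable_one_div_nat_rpow (p := β * k - 1)).2 (by linarith)
  refine Summable.of_norm_bounded_eventually_nat hs ?_
  filter_upwards [eventually_ge_atTop 1] with x hx
  have hx0 : (0 : ℝ) < x := by exact_mod_cast hx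
  rw [Real.norm_of_nonneg (by positivity)]
  have hy : 0 < (x : ℝ) ^ β := Real.rpow_pos_of_pos hx0 β
  have h4 : ((x : ℝ) ^ β) ^ k / k.factorial ≤ Real.exp ((x : ℝ) ^ β) :=
    Real.pow_div_factorial_le_exp _ hy.le k
  rw [← Real.rpow_natCast, ← Real.rpow_mul hx0.le] at h4
  have hf : (0 : ℝ) < k.factorial := by exact_mod_cast Nat.factorial_pos k
  have hz : 0 < (x : ℝ) ^ (β * k) := Real.rpow_pos_of_pos hx0 _
  have h5 : Real.exp (-(x : ℝ) ^ β) ≤ k.factorial / (x : ℝ) ^ (β * k) := by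
    rw [Real.exp_neg, ← one_div, div_le_div_iff₀ (Real.exp_pos _) hz, one_mul]
    rw [div_le_iff₀ hf] at h4
    linarith
  have h6 : (x : ℝ) ^ (β * k - 1) = (x : ℝ) ^ (β * k) / x := by
    rw [Real.rpow_sub hx0, Real.rpow_one]
  rw [h6]
  calc (x : ℝ) * Real.exp (-(x : ℝ) ^ β) ≤ x * (k.factorial / (x : ℝ) ^ (β * k)) := by gcongr
    _ = k.factorial * (1 / ((x : ℝ) ^ (β * k) / x)) := by field_simp

end Pool.Agent.U839.Hl
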