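import Mathlib
import Pool.Agent.U839.Hl.Pat

set_option autoImplicit false

/-! # The equality of Hardy and Littlewood in random models -/

open MeasureTheory ProbabilityTheory Filter Finset Topology

namespace Pool.Agent.U839.Hl

open Pool.Agent.U839.Thin (tlog)
open Pool.Agent.U839.Fb (tloglog borel)
open Pool.Agent.U839.Sv (fT Sieved)
open Pool.Agent.U839.Ru (count_class dvd_prim prim_cop mul_exp sifted)

variable {Ω : Type*} [MeasurableSpace Ω] {μ : Measure Ω} [IsProbabilityMeasure μ]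

open Classical in
/-- the number of elements of `Q` in `(x, x + k]` -/
noncomputable def NN (Q : Set ℕ) (x k : ℕ) : ℕ := ((Ioc x (x + k)).filter (fun n => n ∈ Q)).card

theorem NN_le (Q : Set ℕ) (x k : ℕ) : NN Q x k ≤ k := by
  classical
  unfold NN
  refine (card_filter_le _ _).trans ?_
  rw [Nat.card_Ioc]
  omega

/-- sets of shifts -/
theorem NN_ge (Q : Set ℕ) (n k : ℕ) (A : Finset ℕ) (hA : A ⊆ Icc 1 k) (h : ∀ a ∈ A, n + a ∈ Q) :
    A.card ≤ NN Q n k := by
  classical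
  unfold NN
  rw [← card_image_of_injective A (show Function.Injective (fun a => n + a) from
    fun a b hab => Nat.add_left_cancel hab)]
  apply card_le_card
  intro m hm
  rw [mem_image] at hm
  obtain ⟨a, ha, rfl⟩ := hm
  have := mem_Icc.1 (hA ha)
  rw [mem_filter, mem_Ioc]
  exact ⟨by omega, h a ha⟩

/-- the class -/
theorem resid (m k t : ℕ) : ∃ r, ∀ a, 1 ≤ a → a ≤ k → (∀ p, p.Prime → p ≤ k → ¬ p ∣ m + a) →
    ∀ p, p.Prime → p ≤ t → ¬ p ∣ r + a := by
  classical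
  have hco : Nat.Coprime (primorial k) (∏ p ∈ (Ioc k t).filter Nat.Prime, p) := by
    apply Nat.Coprime.prod_right
    intro q hq
    rw [mem_filter, mem_Ioc] at hq
    exact prim_cop hq.2 hq.1.1
  obtain ⟨r, hr1, hr2⟩ := Nat.chineseRemainder hco m 0
  refine ⟨r, fun a ha1 ha2 h p hp hpt hdvd => ?_⟩
  rcases Nat.lt_or_ge k p with h1 | h1
  · have h2 : r ≡ 0 [MOD p] := hr2.of_dvd (dvd_prod_of_mem (fun p => p) (by
      rw [mem_filter, mem_Ioc]
      exact ⟨⟨h1, hpt⟩, hp⟩))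
    have h3 : p ∣ r := (Nat.modEq_zero_iff_dvd).1 h2
    have h4 : p ∣ a := (Nat.dvd_add_right h3).1 hdvd
    have := Nat.le_of_dvd (by omega) h4
    omega
  · apply h p hp h1
    have h2 : r ≡ m [MOD p] := hr1.of_dvd (dvd_prim hp h1)
    exact ((h2.add_right a).dvd_iff dvd_rfl).1 hdvd

/-- the optimal pattern -/
theorem opt (k : ℕ) : ∃ m, ∃ A : Finset ℕ, A ⊆ Icc 1 k ∧ A.card = HH k ∧
    ∀ a ∈ A, ∀ p, p.Prime → p ≤ k → ¬ p ∣ m + a := by
  classical
  obtain ⟨m, hm⟩ := HH_att k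
  refine ⟨m, (Icc 1 k).filter (fun a => ∀ p, p.Prime → p ≤ k → ¬ p ∣ m + a), filter_subset _ _, ?_,
    fun a ha => (mem_filter.1 ha).2⟩
  rw [← hm]
  unfold hh
  rw [← card_image_of_injective _ (show Function.Injective (fun a => m + a) from
    fun a b hab => Nat.add_left_cancel hab)]
  congr 1
  ext n
  rw [mem_image, mem_filter, mem_Ioc]
  constructor
  · rintro ⟨a, ha, rfl⟩
    rw [mem_filter, mem_Icc] at ha
    exact ⟨by omega, ha.2⟩
  · rintro ⟨h1, h2⟩
    refine ⟨n - m, ?_, by omega⟩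
    rw [mem_filter, mem_Icc]
    have : m + (n - m) = n := by omega
    rw [this]
    exact ⟨by omega, h2⟩

/-- the maximum is small enough -/
theorem card_ok (δ : ℝ) (hδ : 0 < δ) : ∃ c : ℝ, 0 < c ∧ c ≤ 1 ∧ ∀ᶠ X : ℕ in atTop, ∀ k : ℕ,
    (k : ℝ) ≤ c * Real.log X → (HH k : ℝ) * Real.log (2 * Real.log X) ≤ δ / 10 * Real.log X := by
  obtain ⟨C, hC, H⟩ := HH_sieve
  refine ⟨min 1 (δ / (40 * C)), by positivity, min_le_left _ _, ?_⟩
  have hc : min 1 (δ / (40 * C)) ≤ δ / (40 * C) := min_le_right _ _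
  obtain ⟨c, hcd⟩ : ∃ c, c = min 1 (δ / (40 * C)) := ⟨_, rfl⟩
  rw [← hcd] at hc ⊢
  filter_upwards [tloglog.eventually (mul_exp (20 / δ) (1 / 2) (by norm_num)), tloglog.eventually_ge_atTop 1,
    tlog.eventually_ge_atTop 2] with X g1 g2 g3 k hk
  obtain ⟨L, hL⟩ : ∃ L, L = Real.log X := ⟨_, rfl⟩
  rw [← hL] at g1 g2 g3 hk ⊢
  have hL0 : 0 < L := by linarith
  have hlog : Real.log (2 * L) ≤ 2 * Real.log L := by
    rw [Real.log_mul (by norm_num) hL0.ne']
    have := Real.log_two_lt_d9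
    linarith
  have hH0 : (0 : ℝ) ≤ HH k := Nat.cast_nonneg _
  have h1 : (HH k : ℝ) * Real.log (2 * L) ≤ HH k * (2 * Real.log L) := by gcongr
  refine h1.trans ?_
  rcases le_or_gt ((k : ℝ) ^ 2) L with h2 | h2
  · have h3 : (HH k : ℝ) ≤ k := by exact_mod_cast HH_le k
    have h4 : (k : ℝ) ≤ Real.exp (1 / 2 * Real.log L) := by
      have h5 : (Real.exp (1 / 2 * Real.log L)) ^ 2 = L := by
        rw [← Real.exp_nat_mul]
        push_cast
        rw [show 2 * (1 / 2 * Real.log L) = Real.log L by ring, Real.exp_log hL0]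
      rw [← h5] at h2
      exact (sq_le_sq₀ (Nat.cast_nonneg k) (Real.exp_pos _).le).1 h2
    have h5 : Real.exp (1 / 2 * Real.log L) * Real.exp (1 / 2 * Real.log L) = L := by
      rw [← Real.exp_add, show 1 / 2 * Real.log L + 1 / 2 * Real.log L = Real.log L by ring,
        Real.exp_log hL0]
    calc (HH k : ℝ) * (2 * Real.log L) ≤ Real.exp (1 / 2 * Real.log L) * (2 * Real.log L) := by
          gcongr
          exact h3.trans h4
      _ = δ / 10 * (Real.exp (1 / 2 * Real.log L) * (20 / δ * Real.log L)) := by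
          field_simp
          ring
      _ ≤ δ / 10 * (Real.exp (1 / 2 * Real.log L) * Real.exp (1 / 2 * Real.log L)) := by gcongr
      _ = δ / 10 * L := by rw [h5]
  · have hk2 : 2 ≤ k := by
      by_contra hcon
      have h5 : (k : ℝ) ≤ 1 := by exact_mod_cast (by omega : k ≤ 1)
      have h6 : (0 : ℝ) ≤ k := Nat.cast_nonneg k
      nlinarith
    have hk0 : (0 : ℝ) < k := by exact_mod_cast (by omega : 0 < k)
    have h3 := H k hk2
    have h4 : Real.log L ≤ 2 * Real.log k := by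
      have h5 := Real.log_le_log hL0 h2.le
      rw [Real.log_pow] at h5
      push_cast at h5
      exact h5
    have h5 : C * (k : ℝ) ≤ C * (δ / (40 * C) * L) := by
      apply mul_le_mul_of_nonneg_left _ hC.le
      refine hk.trans ?_
      gcongr
    have h6 : C * (δ / (40 * C) * L) = δ / 40 * L := by field_simp
    nlinarith

omit [MeasurableSpace Ω] in
/-- the trivial upper bound -/
theorem NN_up (T : ℕ → ℕ) (hT : Monotone T) (Q : Set ℕ) (hs : ∀ m ∈ Q, ∀ p, p.Prime → p ≤ T m → ¬ p ∣ m)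
    (x k : ℕ) (hk : k ≤ T x) : NN Q x k ≤ HH k := by
  classical
  refine le_trans ?_ (le_HH x k)
  unfold NN hh
  apply card_le_card
  intro n hn
  rw [mem_filter, mem_Ioc] at hn ⊢
  exact ⟨hn.1, fun p hp hpk => hs n hn.2 p hp (hpk.trans (hk.trans (hT (by omega))))⟩

/-- the uniform theorem -/
theorem unif (δ : ℝ) (hδ : 0 < δ) (hδ1 : δ < 1) : ∃ c : ℝ, 0 < c ∧ ∀ (T : ℕ → ℕ), Monotone T →
    (∀ᶠ n : ℕ in atTop, (T n : ℝ) ≤ (1 - δ) * Real.log n) → ∀ (E : ℕ → Set Ω), Sieved μ E T →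
    ∀ᵐ ω ∂μ, ∀ᶠ X : ℕ in atTop, ∀ k : ℕ, (k : ℝ) ≤ c * Real.log X →
      ∃ n, X < n ∧ n ≤ X + X ∧ HH k ≤ NN {m | ω ∈ E m} n k := by
  classical
  obtain ⟨c, hc, hc1, hcok⟩ := card_ok δ hδ
  refine ⟨c, hc, fun T hT hT1 E h => ?_⟩
  have hTl : ∀ᶠ n : ℕ in atTop, (T n : ℝ) ≤ (Real.log n) ^ (1 : ℝ) := by
    filter_upwards [hT1, tlog.eventually_ge_atTop 0] with n hn h0
    rw [Real.rpow_one]
    nlinarith
  have hTs := Pool.Agent.U839.Sv.sub_pow T 1 hTl
  choose m A hA1 hA2 hA3 using opt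
  obtain ⟨B, hB⟩ : ∃ B : ℕ → ℕ → Set Ω, B = fun (X k : ℕ) => if (k : ℝ) ≤ c * Real.log X then
    {ω | ¬ ∃ n, X < n ∧ n ≤ X + X ∧ ∀ a ∈ A k, ω ∈ E (n + a)} else ∅ := ⟨_, rfl⟩
  have hsum : Summable (fun X : ℕ => μ.real (⋃ k ∈ range (X + 1), B X k)) := by
    have h1 := (exp_summable (δ / 10) (by positivity)).mul_left 2
    refine Summable.of_norm_bounded_eventually_nat h1 ?_
    filter_upwards [pat (μ := μ) T hT δ hδ hδ1 hTs hT1 h, hcok, eventually_ge_atTop 1,
      tlog.eventually_ge_atTop 0] with X g1 g2 g3 g4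
    rw [Real.norm_of_nonneg measureReal_nonneg]
    have hone : ∀ k ∈ range (X + 1), μ.real (B X k) ≤ Real.exp (-(X : ℝ) ^ (δ / 10)) := by
      intro k _
      rw [hB]
      simp only
      split_ifs with hk
      · obtain ⟨r, hr⟩ := resid (m k) k (T (3 * X))
        apply g1 k (hk.trans (by nlinarith)) (A k) (hA1 k) (by rw [hA2]; exact g2 k hk) r
        intro a ha p hp hpt
        have ha1 := mem_Icc.1 (hA1 k ha)
        exact hr a ha1.1 ha1.2 (hA3 k a ha) p hp hpt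
      · rw [measureReal_empty]
        exact (Real.exp_pos _).le
    have hX : (1 : ℝ) ≤ X := by exact_mod_cast g3
    calc μ.real (⋃ k ∈ range (X + 1), B X k) ≤ ∑ k ∈ range (X + 1), μ.real (B X k) :=
          measureReal_biUnion_finset_le _ _
      _ ≤ ∑ k ∈ range (X + 1), Real.exp (-(X : ℝ) ^ (δ / 10)) := sum_le_sum hone
      _ = ((X : ℝ) + 1) * Real.exp (-(X : ℝ) ^ (δ / 10)) := by
          rw [sum_const, card_range, nsmul_eq_mul]
          push_cast
          ring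
      _ ≤ 2 * (X * Real.exp (-(X : ℝ) ^ (δ / 10))) := by
          have := Real.exp_pos (-(X : ℝ) ^ (δ / 10))
          nlinarith
  filter_upwards [borel hsum] with ω hω
  filter_upwards [hω, eventually_ge_atTop 1] with X hX hX1 k hk
  have hX0 : (0 : ℝ) < X := by exact_mod_cast hX1
  have hkX : k ≤ X := by
    have h1 := Real.log_le_sub_one_of_pos hX0
    have h2 := Real.log_natCast_nonneg X
    have : (k : ℝ) ≤ X := by nlinarith
    exact_mod_cast this
  have h1 : ω ∉ B X k := fun hcon => hX (by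
    rw [Set.mem_iUnion₂]
    exact ⟨k, mem_range.2 (by omega), hcon⟩)
  rw [hB] at h1
  simp only [if_pos hk] at h1
  simp only [Set.mem_ofPred_eq, not_not] at h1
  obtain ⟨n, hn1, hn2, hn3⟩ := h1
  refine ⟨n, hn1, hn2, ?_⟩
  rw [← hA2 k]
  exact NN_ge _ n k (A k) (hA1 k) hn3

/-- bounded sieves -/
theorem bdd (T : ℕ → ℕ) (hT : Monotone T) (t : ℕ) (ht : ∀ n, T n ≤ t) {E : ℕ → Set Ω} (h : Sieved μ E T) :
    ∀ᵐ ω ∂μ, ∀ k : ℕ, ∃ᶠ x in atTop, (k : ℝ) / primorial t - 1 ≤ NN {m | ω ∈ E m} x k := by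
  classical
  rw [ae_all_iff]
  intro k
  have hT1 : ∀ᶠ n : ℕ in atTop, (T n : ℝ) ≤ (1 - 1 / 2) * Real.log n := by
    filter_upwards [tlog.eventually_ge_atTop (2 * t)] with n hn
    have : (T n : ℝ) ≤ t := by exact_mod_cast ht n
    linarith
  have hTl : ∀ᶠ n : ℕ in atTop, (T n : ℝ) ≤ (Real.log n) ^ (1 : ℝ) := by
    filter_upwards [hT1, tlog.eventually_ge_atTop 0] with n hn h0
    rw [Real.rpow_one]
    nlinarith
  have hTs := Pool.Agent.U839.Sv.sub_pow T 1 hTl
  obtain ⟨A, hA⟩ : ∃ A, A = (Icc 1 k).filter (fun a => a ≡ 1 [MOD primorial t]) := ⟨_, rfl⟩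
  have hA1 : A ⊆ Icc 1 k := by rw [hA]; exact filter_subset _ _
  have hcard : (k : ℝ) / primorial t - 1 ≤ A.card := by
    have h1 := Nat.Ioc_filter_modEq_card 0 k (primorial_pos t) 1
    have h2 : (Ioc 0 k).filter (fun a => a ≡ 1 [MOD primorial t]) = A := by
      rw [hA]
      congr 1
    rw [h2] at h1
    have h3 : ((A.card : ℤ) : ℚ) = ((max (⌊((k : ℚ) - (1 : ℕ)) / primorial t⌋ -
      ⌊(((0 : ℕ) : ℚ) - (1 : ℕ)) / primorial t⌋) 0 : ℤ) : ℚ) := by
      rw [h1]
    have hp0 : (0 : ℚ) < primorial t := by exact_mod_cast primorial_pos t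
    have hp1 : (1 : ℚ) ≤ primorial t := by exact_mod_cast primorial_pos t
    have h4 : ⌊(((0 : ℕ) : ℚ) - (1 : ℕ)) / primorial t⌋ ≤ -1 := by
      have : ⌊(((0 : ℕ) : ℚ) - (1 : ℕ)) / primorial t⌋ < 0 := by
        rw [Int.floor_lt]
        push_cast
        apply div_neg_of_neg_of_pos _ hp0
        norm_num
      omega
    have h5 := Int.lt_floor_add_one (((k : ℚ) - (1 : ℕ)) / primorial t)
    have h6 : (⌊((k : ℚ) - (1 : ℕ)) / primorial t⌋ : ℤ) + 1 ≤ max (⌊((k : ℚ) - (1 : ℕ)) / primorial t⌋ -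
      ⌊(((0 : ℕ) : ℚ) - (1 : ℕ)) / primorial t⌋) 0 := le_max_of_le_left (by omega)
    have h7 : (k : ℚ) / primorial t - 1 ≤ A.card := by
      have h8 : ((⌊((k : ℚ) - (1 : ℕ)) / primorial t⌋ + 1 : ℤ) : ℚ) ≤ ((A.card : ℤ) : ℚ) := by
        rw [h3]
        exact_mod_cast h6
      push_cast at h8 h5
      have h9 : ((k : ℚ) - 1) / primorial t = k / primorial t - 1 / primorial t := by ring
      have h10 : (1 : ℚ) / primorial t ≤ 1 := by
        rw [div_le_one hp0]
        exact hp1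
      linarith
    have h8 := (Rat.cast_le (K := ℝ)).2 h7
    push_cast at h8
    exact h8
  have hsum : Summable (fun X : ℕ => μ.real {ω | ¬ ∃ n, X < n ∧ n ≤ X + X ∧ ∀ a ∈ A, ω ∈ E (n + a)}) := by
    have h1 := exp_summable ((1 / 2 : ℝ) / 10) (by norm_num)
    refine Summable.of_norm_bounded_eventually_nat h1 ?_
    have e1 : ∀ᶠ X : ℕ in atTop, (A.card : ℝ) * Real.log (2 * Real.log X) ≤ (1 / 2 : ℝ) / 10 * Real.log X := by
      filter_upwards [tloglog.eventually (mul_exp (40 * A.card) 1 one_pos), tloglog.eventually_ge_atTop 1,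
        tlog.eventually_gt_atTop 0] with X g1 g2 g3
      rw [one_mul, Real.exp_log g3] at g1
      have hlog : Real.log (2 * Real.log X) ≤ 2 * Real.log (Real.log X) := by
        rw [Real.log_mul (by norm_num) g3.ne']
        have := Real.log_two_lt_d9
        linarith
      have h2 : (A.card : ℝ) * Real.log (2 * Real.log X) ≤ A.card * (2 * Real.log (Real.log X)) := by gcongr
      linarith
    filter_upwards [pat (μ := μ) T hT (1 / 2) (by norm_num) (by norm_num) hTs hT1 h, e1,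
      tlog.eventually_ge_atTop k, eventually_ge_atTop 1] with X g1 g2 g3 g4
    rw [Real.norm_of_nonneg measureReal_nonneg]
    have hX : (1 : ℝ) ≤ X := by exact_mod_cast g4
    refine (g1 k g3 A hA1 g2 0 (fun a ha p hp hpt hdvd => ?_)).trans ?_
    · rw [zero_add] at hdvd
      rw [hA, mem_filter] at ha
      have h2 : a ≡ 1 [MOD p] := ha.2.of_dvd (dvd_prim hp (hpt.trans (ht _)))
      have h3 : p ∣ 1 := (h2.dvd_iff dvd_rfl).1 hdvd
      exact hp.one_lt.ne' (Nat.dvd_one.1 h3)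
    · have := Real.exp_pos (-(X : ℝ) ^ ((1 / 2 : ℝ) / 10))
      nlinarith
  filter_upwards [borel hsum] with ω hω
  rw [Filter.frequently_atTop]
  intro N
  obtain ⟨X, hX1, hX2⟩ := (hω.and (eventually_ge_atTop N)).exists
  simp only [not_not] at hX1
  obtain ⟨n, hn1, hn2, hn3⟩ := hX1
  refine ⟨n, by omega, hcard.trans ?_⟩
  exact_mod_cast NN_ge _ n k A hA1 hn3

end Pool.Agent.U839.Hl
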