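import Mathlib
import Pool.Agent.U839.Hl.Main
import Pool.Agent.U839.Hl.Cnd

set_option autoImplicit false

/-! # Optimal patterns in random models, for sieves up to powers of `log n` -/

open MeasureTheory ProbabilityTheory Filter Finset Topology

namespace Pool.Agent.U839.Hl

open Pool.Agent.U839.Thin (tlog none_complete)
open Pool.Agent.U839.Fb (tloglog borel)
open Pool.Agent.U839.Sv (W W_pos fT fT_nonneg Sieved law')
open Pool.Agent.U839.Rg (fT_one)
open Pool.Agent.U839.Ru (log_small sifted)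

variable {Ω : Type*} [MeasurableSpace Ω] {μ : Measure Ω} [IsProbabilityMeasure μ]

set_option maxHeartbeats 4000000 in
/-- a pattern with many candidates occurs with large probability -/
theorem pat2 (T : ℕ → ℕ) (hT : Monotone T)
    (hTs : ∀ ε : ℝ, 0 < ε → ∀ᶠ n : ℕ in atTop, (T n : ℝ) ≤ (n : ℝ) ^ ε)
    {E : ℕ → Set Ω} (h : Sieved μ E T) :
    ∀ᶠ X : ℕ in atTop, ∀ k : ℕ, (k : ℝ) ≤ Real.log X → ∀ A : Finset ℕ, A ⊆ Icc 1 k →
      (A.card : ℝ) * Real.log (2 * Real.log X) ≤ 1 / 100 * Real.log X → ∀ S₀ : Finset ℕ, S₀ ⊆ Ioc X (X + X) →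
      (∀ n ∈ S₀, ∀ a ∈ A, ∀ p, p.Prime → p ≤ T (3 * X) → ¬ p ∣ n + a) →
      Real.exp (1 / 2 * Real.log X) ≤ S₀.card →
      μ.real {ω | ¬ ∃ n, X < n ∧ n ≤ X + X ∧ ∀ a ∈ A, ω ∈ E (n + a)} ≤ Real.exp (-(X : ℝ) ^ (1 / 4 : ℝ)) := by
  classical
  obtain ⟨n₀, hn₀⟩ := eventually_atTop.1 (law' h hTs)
  filter_upwards [log_small 1 (1 / 100) (by norm_num), tlog.eventually_ge_atTop 2, eventually_ge_atTop 4,
    eventually_ge_atTop n₀] with X g4 g5 g6 g7 k hk A hA hAc S₀ hS₀ hr hcard₀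
  obtain ⟨L, hL⟩ : ∃ L, L = Real.log X := ⟨_, rfl⟩
  rw [← hL] at g4 g5 hk hAc hcard₀
  have hX4 : (4 : ℝ) ≤ X := by exact_mod_cast g6
  have hX0 : (0 : ℝ) < X := by linarith
  have hL0 : 0 < L := by linarith
  have hexp : Real.exp (1 / 2 * L) = (X : ℝ) ^ (1 / 2 : ℝ) := by
    rw [Real.rpow_def_of_pos hX0, ← hL, mul_comm]
  rw [hexp] at hcard₀
  obtain ⟨s, hs⟩ := Pool.Agent.U839.Thin.residue S₀ (k + 1) (Nat.succ_pos _)
  obtain ⟨S, hS⟩ : ∃ S, S = S₀.filter (fun n => n % (k + 1) = s) := ⟨_, rfl⟩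
  rw [← hS] at hs
  have hcard : (X : ℝ) ^ (49 / 100 : ℝ) ≤ S.card := by
    have h1 : (S₀.card : ℝ) ≤ ((k : ℝ) + 1) * S.card := by exact_mod_cast hs
    have h3 : (X : ℝ) ^ (1 / 2 : ℝ) ≤ (X : ℝ) ^ (1 / 100 : ℝ) * S.card := by
      refine hcard₀.trans (h1.trans ?_)
      apply mul_le_mul_of_nonneg_right _ (Nat.cast_nonneg _)
      linarith
    have h4 : (X : ℝ) ^ (1 / 2 : ℝ) = (X : ℝ) ^ (1 / 100 : ℝ) * (X : ℝ) ^ (49 / 100 : ℝ) := by
      rw [← Real.rpow_add hX0]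
      norm_num
    rw [h4] at h3
    exact le_of_mul_le_mul_left h3 (by positivity)
  -- the sets
  have hdisj : ∀ i ∈ S, ∀ j ∈ S, i ≠ j → Disjoint (A.image (fun a => i + a)) (A.image (fun a => j + a)) := by
    intro i hi j hj hij
    rw [hS, mem_filter] at hi hj
    rw [Finset.disjoint_left]
    intro m hm1 hm2
    rw [mem_image] at hm1 hm2
    obtain ⟨a, ha, rfl⟩ := hm1
    obtain ⟨b, hb, hab⟩ := hm2
    have ha1 := mem_Icc.1 (hA ha)
    have hb1 := mem_Icc.1 (hA hb)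
    have h5 : i ≡ j [MOD (k + 1)] := by
      unfold Nat.ModEq
      rw [hi.2, hj.2]
    rcases Nat.lt_or_gt_of_ne hij with h6 | h6
    · have h7 := (Nat.modEq_iff_dvd' h6.le).1 h5
      have h8 := Nat.le_of_dvd (by omega) h7
      omega
    · have h7 := (Nat.modEq_iff_dvd' h6.le).1 h5.symm
      have h8 := Nat.le_of_dvd (by omega) h7
      omega
  have hmain := none_complete (μ := μ) h.meas h.indep S (fun i => A.image (fun a => i + a)) hdisj
  have hkX : k ≤ X := by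
    have : (k : ℝ) ≤ X := by
      refine hk.trans ?_
      rw [hL]
      have := Real.log_le_sub_one_of_pos hX0
      linarith
    exact_mod_cast this
  -- the probability
  have hprob : ∀ i ∈ S, (X : ℝ) ^ (-(1 / 100 : ℝ)) ≤ ∏ p ∈ A.image (fun a => i + a), μ.real (E p) := by
    intro i hi
    rw [hS, mem_filter] at hi
    have hi1 := mem_Ioc.1 (hS₀ hi.1)
    rw [prod_image (fun a _ b _ hab => Nat.add_left_cancel hab)]
    have h1 : ∀ a ∈ A, 1 / (2 * L) ≤ μ.real (E (i + a)) := by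
      intro a ha
      have ha1 := mem_Icc.1 (hA ha)
      rw [hn₀ (i + a) (by omega)]
      have hm0 : (X : ℝ) ≤ ((i + a : ℕ) : ℝ) := by exact_mod_cast (by omega : X ≤ i + a)
      have hm3 : ((i + a : ℕ) : ℝ) ≤ 3 * X := by exact_mod_cast (by omega : i + a ≤ 3 * X)
      have hl1 : L ≤ Real.log ((i + a : ℕ) : ℝ) := by rw [hL]; exact Real.log_le_log hX0 hm0
      have hl2 : Real.log ((i + a : ℕ) : ℝ) ≤ 2 * L := by
        calc Real.log ((i + a : ℕ) : ℝ) ≤ Real.log (X * X) := Real.log_le_log (by linarith) (by nlinarith)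
          _ = 2 * L := by rw [Real.log_mul hX0.ne' hX0.ne', hL]; ring
      have h4 : 1 ≤ fT T (i + a) := fT_one (t := T (3 * X)) (hT (by omega))
        (fun p hp hpt hdvd => hr i hi.1 a ha p hp hpt hdvd)
      rw [div_le_div_iff₀ (by positivity) (by linarith)]
      nlinarith
    have e : (1 / (2 * L)) ^ A.card = Real.exp (-(A.card * Real.log (2 * L))) := by
      rw [← Real.rpow_natCast (1 / (2 * L)), Real.rpow_def_of_pos (by positivity), one_div, Real.log_inv]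
      congr 1
      ring
    calc (X : ℝ) ^ (-(1 / 100 : ℝ)) ≤ (1 / (2 * L)) ^ A.card := by
          rw [e, Real.rpow_def_of_pos hX0, ← hL]
          apply Real.exp_le_exp.2
          linarith
      _ = ∏ a ∈ A, 1 / (2 * L) := by rw [prod_const]
      _ ≤ ∏ a ∈ A, μ.real (E (i + a)) := prod_le_prod (fun _ _ => by positivity) h1
  have hsub : {ω | ¬ ∃ n, X < n ∧ n ≤ X + X ∧ ∀ a ∈ A, ω ∈ E (n + a)} ⊆
      ⋂ i ∈ S, (⋂ p ∈ A.image (fun a => i + a), E p)ᶜ := by
    intro ω hω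
    rw [Set.mem_iInter₂]
    intro i hi hcon
    apply hω
    have hi1 := hi
    rw [hS, mem_filter] at hi1
    have hi2 := mem_Ioc.1 (hS₀ hi1.1)
    refine ⟨i, hi2.1, hi2.2, fun a ha => ?_⟩
    rw [Set.mem_iInter₂] at hcon
    exact hcon (i + a) (mem_image_of_mem _ ha)
  refine (measureReal_mono hsub (measure_ne_top _ _)).trans (hmain.trans ?_)
  apply Real.exp_le_exp.2
  rw [neg_le_neg_iff]
  calc (X : ℝ) ^ (1 / 4 : ℝ) ≤ (X : ℝ) ^ (48 / 100 : ℝ) :=
        Real.rpow_le_rpow_of_exponent_le (by linarith) (by norm_num)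
    _ = (X : ℝ) ^ (49 / 100 : ℝ) * (X : ℝ) ^ (-(1 / 100 : ℝ)) := by
        rw [← Real.rpow_add hX0]
        norm_num
    _ ≤ S.card * (X : ℝ) ^ (-(1 / 100 : ℝ)) := by gcongr
    _ = ∑ i ∈ S, (X : ℝ) ^ (-(1 / 100 : ℝ)) := by rw [sum_const, nsmul_eq_mul]
    _ ≤ _ := sum_le_sum hprob

/-- the uniform theorem -/
theorem unif2 (θ : ℝ) (hθ : 0 < θ) : ∃ c : ℝ, 0 < c ∧ c ≤ 1 ∧ ∀ (T : ℕ → ℕ), Monotone T →
    (∀ᶠ n : ℕ in atTop, (T n : ℝ) ≤ (Real.log n) ^ θ) →
    ∀ (Ω : Type*) [MeasurableSpace Ω] (μ : Measure Ω) [IsProbabilityMeasure μ] (E : ℕ → Set Ω), Sieved μ E T →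
    ∀ᵐ ω ∂μ, ∀ᶠ X : ℕ in atTop, ∀ k : ℕ, (k : ℝ) ≤ c * Real.log X →
      ∃ n, X < n ∧ n ≤ X + X ∧ HH k ≤ NN {m | ω ∈ E m} n k := by
  classical
  obtain ⟨c₀, hc₀, hc₀1, hcnd⟩ := cnd θ hθ
  obtain ⟨c, hc, hc1, hcok⟩ := card_ok (10 * c₀) (by positivity)
  refine ⟨c, hc, hc1, fun T hT hTθ Ω _ μ _ E h => ?_⟩
  have hTs := Pool.Agent.U839.Sv.sub_pow T θ hTθ
  have h3m : Tendsto (fun x : ℕ => 3 * x) atTop atTop := tendsto_id.const_mul_atTop' (by norm_num)
  choose m A hA1 hA2 hA3 using opt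
  obtain ⟨B, hB⟩ : ∃ B : ℕ → ℕ → Set Ω, B = fun (X k : ℕ) => if (k : ℝ) ≤ c * Real.log X then
    {ω | ¬ ∃ n, X < n ∧ n ≤ X + X ∧ ∀ a ∈ A k, ω ∈ E (n + a)} else ∅ := ⟨_, rfl⟩
  have hsum : Summable (fun X : ℕ => μ.real (⋃ k ∈ range (X + 1), B X k)) := by
    have h1 := (exp_summable (1 / 4) (by positivity)).mul_left 2
    refine Summable.of_norm_bounded_eventually_nat h1 ?_
    filter_upwards [pat2 (μ := μ) T hT hTs h, hcok, eventually_ge_atTop 1, hcnd, h3m.eventually hTθ,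
      tlog.eventually_ge_atTop 2] with X g1 g2 g3 g4 g5 g6
    rw [Real.norm_of_nonneg measureReal_nonneg]
    have hone : ∀ k ∈ range (X + 1), μ.real (B X k) ≤ Real.exp (-(X : ℝ) ^ (1 / 4 : ℝ)) := by
      intro k _
      rw [hB]
      simp only
      split_ifs with hk
      · have hcard : ((A k).card : ℝ) * Real.log (2 * Real.log X) ≤ c₀ * Real.log X := by
          have h2 := g2 k hk
          rw [hA2 k]
          calc (HH k : ℝ) * Real.log (2 * Real.log X) ≤ 10 * c₀ / 10 * Real.log X := h2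
            _ = c₀ * Real.log X := by ring
        have hX0 : (0 : ℝ) < X := by exact_mod_cast g3
        have h3 : (T (3 * X) : ℝ) ≤ (2 * Real.log X) ^ θ := by
          refine g5.trans ?_
          apply Real.rpow_le_rpow (Real.log_natCast_nonneg _) _ hθ.le
          push_cast
          rw [Real.log_mul (by norm_num) hX0.ne']
          have : Real.log 3 ≤ 2 := by
            have := Real.log_le_sub_one_of_pos (show (0 : ℝ) < 3 by norm_num)
            linarith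
          linarith
        obtain ⟨r, hr⟩ := resid (m k) k ⌊Real.log X / 8⌋₊
        obtain ⟨S, hS1, hS2, hS3⟩ := g4 (T (3 * X)) h3 (A k) hcard r (fun a ha => by
          have ha1 := mem_Icc.1 (hA1 k ha)
          exact hr a ha1.1 ha1.2 (hA3 k a ha))
        refine g1 k ?_ (A k) (hA1 k) ?_ S hS1 hS2 hS3
        · nlinarith
        · refine hcard.trans ?_
          gcongr
      · rw [measureReal_empty]
        exact (Real.exp_pos _).le
    calc μ.real (⋃ k ∈ range (X + 1), B X k) ≤ ∑ k ∈ range (X + 1), μ.real (B X k) :=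
          measureReal_biUnion_finset_le _ _
      _ ≤ ∑ k ∈ range (X + 1), Real.exp (-(X : ℝ) ^ (1 / 4 : ℝ)) := sum_le_sum hone
      _ = ((X : ℝ) + 1) * Real.exp (-(X : ℝ) ^ (1 / 4 : ℝ)) := by
          rw [sum_const, card_range, nsmul_eq_mul]
          push_cast
          ring
      _ ≤ 2 * ((X : ℝ) * Real.exp (-(X : ℝ) ^ (1 / 4 : ℝ))) := by
          have h1 : (1 : ℝ) ≤ X := by exact_mod_cast g3
          have := Real.exp_pos (-(X : ℝ) ^ (1 / 4 : ℝ))
          nlinarith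
  filter_upwards [borel hsum] with ω hω
  filter_upwards [hω, tlog.eventually_ge_atTop 0, eventually_ge_atTop 1] with X hX g1 g2 k hk
  have hkX : k ≤ X := by
    have hX0 : (0 : ℝ) < X := by exact_mod_cast g2
    have h1 := Real.log_le_sub_one_of_pos hX0
    have : (k : ℝ) ≤ X := by nlinarith
    exact_mod_cast this
  have h1 : ω ∉ B X k := fun hcon => hX (by
    rw [Set.mem_iUnion₂]
    exact ⟨k, mem_range.2 (by omega), hcon⟩)
  rw [hB] at h1
  simp only at h1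
  rw [if_pos hk] at h1
  simp only [Set.mem_ofPred_eq, not_not] at h1
  obtain ⟨n, hn1, hn2, hn3⟩ := h1
  refine ⟨n, hn1, hn2, ?_⟩
  rw [← hA2 k]
  exact NN_ge _ n k (A k) (hA1 k) hn3

end Pool.Agent.U839.Hl
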