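import Mathlib
import Pool.Agent.U839.Hl.Pat2

set_option autoImplicit false

/-! # The equality fails beyond `log x` -/

open MeasureTheory ProbabilityTheory Filter Finset Topology

namespace Pool.Agent.U839.Hl

open Pool.Agent.U839.Thin (tlog)
open Pool.Agent.U839.Fb (tloglog borel)
open Pool.Agent.U839.Sv (W W_pos fT fT_nonneg Sieved)
open Pool.Agent.U839.Ru (prim_le prim_ge prim_pr log_small mul_exp sifted)

variable {Ω : Type*} [MeasurableSpace Ω] {μ : Measure Ω} [IsProbabilityMeasure μ]

/-- the primes in `(k, 2 k]` -/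
theorem HH_low (η : ℝ) (hη : 0 < η) : ∀ᶠ k : ℕ in atTop, (1 - η) * k ≤ HH k * Real.log (2 * k) := by
  classical
  obtain ⟨C1, hC1, H1⟩ := prim_le (η / 6) (by positivity)
  obtain ⟨C2, hC2, H2⟩ := prim_ge (η / 6) (by positivity)
  filter_upwards [eventually_ge_atTop 1, tendsto_natCast_atTop_atTop.eventually_ge_atTop ((C1 + C2) * (2 / η))]
    with k g1 g2
  obtain ⟨P, hP⟩ : ∃ P, P = (Ioc k (k + k)).filter Nat.Prime := ⟨_, rfl⟩
  have hk0 : (0 : ℝ) < k := by exact_mod_cast g1
  have h1 : P.card ≤ HH k := by
    refine le_trans ?_ (le_HH k k)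
    unfold hh
    apply card_le_card
    intro p hp
    rw [hP, mem_filter, mem_Ioc] at hp
    rw [mem_filter, mem_Ioc]
    refine ⟨hp.1, fun q hq hqk hdvd => ?_⟩
    have := (Nat.prime_dvd_prime_iff_eq hq hp.2).1 hdvd
    omega
  have h2 : primorial (k + k) = primorial k * ∏ p ∈ P, p := by
    rw [prim_pr, prim_pr, hP, ← Finset.prod_union]
    · congr 1
      ext p
      simp only [mem_union, mem_filter, mem_Ioc]
      constructor
      · rintro ⟨⟨h3, h4⟩, h5⟩
        rcases Nat.lt_or_ge k p with h6 | h6
        · exact Or.inr ⟨⟨h6, h4⟩, h5⟩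
        · exact Or.inl ⟨⟨h3, h6⟩, h5⟩
      · rintro (⟨⟨h3, h4⟩, h5⟩ | ⟨⟨h3, h4⟩, h5⟩)
        · exact ⟨⟨h3, by omega⟩, h5⟩
        · exact ⟨⟨by omega, h4⟩, h5⟩
    · rw [Finset.disjoint_left]
      intro p hp hp'
      rw [mem_filter, mem_Ioc] at hp hp'
      omega
  have h3 : Real.log (primorial (k + k)) ≤ Real.log (primorial k) + P.card * Real.log (2 * k) := by
    have hprod : ((∏ p ∈ P, p : ℕ) : ℝ) ≤ (2 * (k : ℝ)) ^ P.card := by
      push_cast
      rw [← prod_const]
      apply prod_le_prod (fun _ _ => Nat.cast_nonneg _)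
      intro p hp
      rw [hP, mem_filter, mem_Ioc] at hp
      have : p ≤ 2 * k := by omega
      exact_mod_cast this
    have hpos : (0 : ℝ) < ((∏ p ∈ P, p : ℕ) : ℝ) := by
      have : 0 < ∏ p ∈ P, p := prod_pos (fun p hp => by
        rw [hP, mem_filter] at hp
        exact hp.2.pos)
      exact_mod_cast this
    have hk : (0 : ℝ) < primorial k := by exact_mod_cast primorial_pos k
    rw [h2]
    push_cast at hpos hprod ⊢
    rw [Real.log_mul hk.ne' hpos.ne']
    have h4 := Real.log_le_log hpos hprod
    rw [Real.log_pow] at h4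
    linarith
  have h4 := H1 k
  have h5 := H2 (k + k)
  push_cast at h5
  have h6 : (C1 + C2) ≤ η / 2 * k := by
    have h7 : (C1 + C2) * (2 / η) * (η / 2) ≤ k * (η / 2) := by gcongr
    have h8 : (C1 + C2) * (2 / η) * (η / 2) = C1 + C2 := by field_simp
    linarith
  have h7 : (1 - η) * k ≤ P.card * Real.log (2 * k) := by nlinarith
  have h8 : (P.card : ℝ) ≤ HH k := by exact_mod_cast h1
  have h9 : 0 ≤ Real.log (2 * (k : ℝ)) := Real.log_nonneg (by
    have : (1 : ℝ) ≤ k := by exact_mod_cast g1
    linarith)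
  have h10 := mul_le_mul_of_nonneg_right h8 h9
  linarith

/-- `κ / log (2 κ)` is increasing -/
theorem frac_mono (a b : ℝ) (ha : 0 < a) (hab : a ≤ b) (h1 : 1 ≤ Real.log (2 * a)) :
    a * Real.log (2 * b) ≤ b * Real.log (2 * a) := by
  have hb : 0 < b := by linarith
  have e : Real.log (2 * b) = Real.log (2 * a) + Real.log (b / a) := by
    rw [← Real.log_mul (by positivity) (by positivity)]
    congr 1
    field_simp
  have h2 := Real.log_le_sub_one_of_pos (show 0 < b / a by positivity)
  have h3 : a * Real.log (b / a) ≤ b - a := by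
    calc a * Real.log (b / a) ≤ a * (b / a - 1) := by gcongr
      _ = b - a := by field_simp
  rw [e]
  nlinarith

set_option maxHeartbeats 4000000 in
theorem fail (θ : ℝ) (hθ : 0 < θ) (T : ℕ → ℕ) (hTθ : ∀ᶠ n : ℕ in atTop, (T n : ℝ) ≤ (Real.log n) ^ θ)
    (hT : Monotone T) {E : ℕ → Set Ω} (h : Sieved μ E T) (ε : ℝ) (hε : 0 < ε) :
    ∀ᵐ ω ∂μ, ∀ᶠ x : ℕ in atTop, ∀ k : ℕ, k ≤ T x → (1 + ε) * Real.log x ≤ k →
      NN {m | ω ∈ E m} x k < HH k := by
  classical
  obtain ⟨C, hC, hW⟩ := Pool.Agent.U839.Sv.W_bound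
  obtain ⟨η, hη⟩ : ∃ η : ℝ, η = ε / (10 * (1 + ε)) := ⟨_, rfl⟩
  have hη0 : 0 < η := by rw [hη]; positivity
  have hη1 : η * (1 + ε) = ε / 10 := by rw [hη]; field_simp
  have hη2 : η ≤ 1 / 10 := by
    rw [hη, div_le_div_iff₀ (by positivity) (by norm_num)]
    linarith
  obtain ⟨k₀, hk₀⟩ := eventually_atTop.1 (HH_low η hη0)
  obtain ⟨n₀, hn₀⟩ := eventually_atTop.1 hTθ
  obtain ⟨S, hS⟩ : ∃ S : ℕ → ℕ → Finset ℕ, S = fun (x k : ℕ) =>
    (Ioc x (x + k)).filter (fun n => ∀ p, p.Prime → p ≤ k → ¬ p ∣ n) := ⟨_, rfl⟩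
  have hSc : ∀ x k, (S x k).card = hh x k := by
    intro x k
    rw [hS]
    unfold hh
    congr
  obtain ⟨B, hB⟩ : ∃ B : ℕ → ℕ → Set Ω, B = fun (x k : ℕ) =>
    if (1 + ε) * Real.log x ≤ k ∧ HH k ≤ (S x k).card then ⋂ n ∈ S x k, E n else ∅ := ⟨_, rfl⟩
  have hsum : Summable (fun x : ℕ => μ.real (⋃ k ∈ range (T x + 1), B x k)) := by
    have h1 : Summable (fun x : ℕ => 1 / (x : ℝ) ^ (1 + 4 / 10 * ε)) :=
      Real.summable_one_div_nat_rpow.2 (by linarith)
    refine Summable.of_norm_bounded_eventually_nat h1 ?_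
    have hTs := Pool.Agent.U839.Sv.sub_pow T θ hTθ
    filter_upwards [hTθ, hTs (1 / 10 * ε) (by positivity), eventually_ge_atTop n₀, eventually_ge_atTop 1,
      tlog.eventually_ge_atTop (k₀ + 100), tloglog.eventually (mul_exp (2 * C + 4 * C * θ) η hη0),
      tloglog.eventually_ge_atTop ((Real.log (2 * (1 + ε)) + 1) / η), tloglog.eventually_ge_atTop 1,
      log_small 2 (1 / 10 * ε) (by positivity), hTs 1 one_pos] with x g1 g2 g3 g4 g5 g6 g7 g8 g9 g10
    rw [Real.norm_of_nonneg measureReal_nonneg]
    obtain ⟨L, hL⟩ : ∃ L, L = Real.log x := ⟨_, rfl⟩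
    obtain ⟨u, hu⟩ : ∃ u, u = Real.log L := ⟨_, rfl⟩
    rw [← hL] at g1 g5 g6 g7 g8 g9
    rw [← hu] at g6 g7 g8
    have hk₀0 : (0 : ℝ) ≤ k₀ := Nat.cast_nonneg _
    have hL0 : 0 < L := by linarith
    have hx0 : (0 : ℝ) < x := by exact_mod_cast g4
    have hx1 : (1 : ℝ) ≤ x := by exact_mod_cast g4
    have huL : Real.exp u = L := by rw [hu, Real.exp_log hL0]
    -- the parameter
    obtain ⟨κ, hκ⟩ : ∃ κ, κ = (1 + ε) * L := ⟨_, rfl⟩
    have hκL : L ≤ κ := by rw [hκ]; nlinarith
    have hκ0 : 0 < κ := by linarith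
    have hlog2κ : Real.log (2 * κ) = u + Real.log (2 * (1 + ε)) := by
      rw [hκ, show 2 * ((1 + ε) * L) = L * (2 * (1 + ε)) by ring, Real.log_mul hL0.ne' (by positivity), hu]
    have hlog1 : 0 ≤ Real.log (2 * (1 + ε)) := Real.log_nonneg (by linarith)
    have hlog2 : (1 - η) * Real.log (2 * κ) ≤ u := by
      have h2 : Real.log (2 * (1 + ε)) + 1 ≤ η * u := by
        have h3 : (Real.log (2 * (1 + ε)) + 1) / η * η ≤ u * η := by gcongr
        rw [div_mul_cancel₀ _ hη0.ne'] at h3
        linarith
      rw [hlog2κ]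
      nlinarith
    have hlog3 : 1 ≤ Real.log (2 * κ) := by rw [hlog2κ]; linarith
    have hone : ∀ k ∈ range (T x + 1), μ.real (B x k) ≤ Real.exp (-((1 + 7 / 10 * ε) * L)) := by
      intro k hk
      rw [mem_range] at hk
      rw [hB]
      simp only
      split_ifs with hcond
      · obtain ⟨hc1, hc2⟩ := hcond
        rw [← hL, ← hκ] at hc1
        have hkL : (k₀ : ℝ) ≤ k := by linarith
        have hkk₀ : k₀ ≤ k := by exact_mod_cast hkL
        have hk0 : (0 : ℝ) < k := by linarith
        have hkx : k ≤ x := by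
          have h2 : (T x : ℝ) ≤ x := by rwa [Real.rpow_one] at g10
          have h3 : T x ≤ x := by exact_mod_cast h2
          omega
        -- the probabilities
        have hq : ∀ n ∈ S x k, μ.real (E n) ≤ Real.exp (-((1 - η) * u)) := by
          intro n hn
          rw [hS] at hn
          simp only [mem_filter, mem_Ioc] at hn
          have hn1 : (x : ℝ) ≤ n := by exact_mod_cast hn.1.1.le
          have hn2 : (n : ℝ) ≤ 2 * x := by exact_mod_cast (by omega : n ≤ 2 * x)
          have hl1 : L ≤ Real.log n := by rw [hL]; exact Real.log_le_log hx0 hn1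
          have hl2 : Real.log n ≤ 2 * L := by
            have h2 := Real.log_le_log (by linarith : (0 : ℝ) < n) hn2
            rw [Real.log_mul (by norm_num) hx0.ne', ← hL] at h2
            have := Real.log_two_lt_d9
            linarith
          have hWn : W (T n) ≤ (2 * C + 4 * C * θ) * u := by
            have hTn : Real.log (T n) ≤ θ * (2 * u) := by
              rcases Nat.eq_zero_or_pos (T n) with h0 | h0
              · rw [h0, Nat.cast_zero, Real.log_zero]; positivity
              · have h2 := Real.log_le_log (by exact_mod_cast h0) (hn₀ n (by omega))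
                rw [Real.log_rpow (by linarith)] at h2
                have h3 : Real.log (Real.log n) ≤ 2 * u := by
                  calc Real.log (Real.log n) ≤ Real.log (2 * L) := Real.log_le_log (by linarith) hl2
                    _ = Real.log 2 + u := by rw [Real.log_mul (by norm_num) hL0.ne', hu]
                    _ ≤ 2 * u := by
                        have := Real.log_two_lt_d9
                        linarith
                calc Real.log (T n) ≤ θ * Real.log (Real.log n) := h2
                  _ ≤ θ * (2 * u) := by gcongr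
            have h2 := hW (T n)
            have h3 : C * Real.log (T n) ≤ C * (θ * (2 * u)) := by gcongr
            have h4 : 0 ≤ C * θ * u := by positivity
            nlinarith
          rw [h.law n]
          refine (min_le_right _ _).trans ?_
          rw [div_le_iff₀ (by linarith)]
          calc fT T n ≤ W (T n) := Pool.Agent.U839.Sv.fT_le T n
            _ ≤ (2 * C + 4 * C * θ) * u := hWn
            _ ≤ Real.exp (η * u) := g6
            _ = Real.exp (-((1 - η) * u)) * Real.exp u := by
                rw [← Real.exp_add]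
                congr 1
                ring
            _ = Real.exp (-((1 - η) * u)) * L := by rw [huL]
            _ ≤ Real.exp (-((1 - η) * u)) * Real.log n := by gcongr
        have hprod : μ.real (⋂ n ∈ S x k, E n) = ∏ n ∈ S x k, μ.real (E n) := by
          have h2 := h.indep.meas_biInter (S x k)
          simp only [measureReal_def]
          rw [h2, ENNReal.toReal_prod]
        rw [hprod]
        have hHk : (HH k : ℝ) ≤ (S x k).card := by exact_mod_cast hc2
        calc ∏ n ∈ S x k, μ.real (E n) ≤ ∏ n ∈ S x k, Real.exp (-((1 - η) * u)) :=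
              prod_le_prod (fun _ _ => measureReal_nonneg) hq
          _ = Real.exp (-((1 - η) * u) * (S x k).card) := by
              rw [prod_const, ← Real.exp_nat_mul, mul_comm]
          _ ≤ Real.exp (-((1 + 7 / 10 * ε) * L)) := by
              apply Real.exp_le_exp.2
              have h2 := hk₀ k hkk₀
              have h3 := frac_mono κ k hκ0 hc1 hlog3
              have h4 : 0 < Real.log (2 * (k : ℝ)) := by
                have h5 : Real.log (2 * κ) ≤ Real.log (2 * k) := Real.log_le_log (by positivity) (by linarith)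
                linarith
              -- HH k log (2 κ) ≥ (1 - η) κ
              have h5 : (1 - η) * κ ≤ HH k * Real.log (2 * κ) := by
                have h6 : (1 - η) * k * (κ * Real.log (2 * k)) ≤
                    (HH k * Real.log (2 * k)) * (k * Real.log (2 * κ)) := by
                  apply mul_le_mul h2 h3 (by positivity)
                  exact mul_nonneg (Nat.cast_nonneg _) h4.le
                have h7 : (1 - η) * κ * (k * Real.log (2 * k)) ≤
                    HH k * Real.log (2 * κ) * (k * Real.log (2 * k)) := by linarith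
                exact le_of_mul_le_mul_right h7 (by positivity)
              have h8 : (1 - η) * ((1 - η) * κ) ≤ HH k * u := by
                have h9 : (HH k : ℝ) * ((1 - η) * Real.log (2 * κ)) ≤ HH k * u := by gcongr
                have h10 : (1 - η) * ((1 - η) * κ) ≤ (1 - η) * (HH k * Real.log (2 * κ)) :=
                  mul_le_mul_of_nonneg_left h5 (by linarith)
                linarith
              have h11 : (1 - η) * ((1 - η) * ((1 - η) * κ)) ≤ (1 - η) * u * HH k := by
                have := mul_le_mul_of_nonneg_left h8 (show 0 ≤ 1 - η by linarith)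
                linarith
              have h12 : (1 - η) * u * HH k ≤ (1 - η) * u * (S x k).card := by
                apply mul_le_mul_of_nonneg_left hHk
                exact mul_nonneg (by linarith) (by linarith)
              have h13 : (1 + 7 / 10 * ε) * L ≤ (1 - η) * ((1 - η) * ((1 - η) * κ)) := by
                have h14 : (1 - 3 * η) * κ ≤ (1 - η) * ((1 - η) * ((1 - η) * κ)) := by
                  have h15 : 1 - 3 * η ≤ (1 - η) * ((1 - η) * (1 - η)) := by nlinarith
                  have := mul_le_mul_of_nonneg_right h15 hκ0.le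
                  linarith
                have h16 : (1 - 3 * η) * κ = (1 + 7 / 10 * ε) * L := by
                  rw [hκ]
                  have : (1 - 3 * η) * ((1 + ε) * L) = ((1 + ε) - 3 * (η * (1 + ε))) * L := by ring
                  rw [this, hη1]
                  ring
                linarith
              linarith
      · rw [measureReal_empty]
        exact (Real.exp_pos _).le
    have hTx : (T x : ℝ) + 1 ≤ (x : ℝ) ^ (3 / 10 * ε) := by
      have h2 : (2 : ℝ) ≤ (x : ℝ) ^ (1 / 10 * ε) := by linarith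
      have h3 : (x : ℝ) ^ (3 / 10 * ε) = (x : ℝ) ^ (1 / 10 * ε) * ((x : ℝ) ^ (1 / 10 * ε) * (x : ℝ) ^ (1 / 10 * ε)) := by
        rw [← Real.rpow_add hx0, ← Real.rpow_add hx0]
        congr 1
        ring
      rw [h3]
      nlinarith
    calc μ.real (⋃ k ∈ range (T x + 1), B x k) ≤ ∑ k ∈ range (T x + 1), μ.real (B x k) :=
          measureReal_biUnion_finset_le _ _
      _ ≤ ∑ k ∈ range (T x + 1), Real.exp (-((1 + 7 / 10 * ε) * L)) := sum_le_sum hone
      _ = ((T x : ℝ) + 1) * Real.exp (-((1 + 7 / 10 * ε) * L)) := by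
          rw [sum_const, card_range, nsmul_eq_mul]
          push_cast
          ring
      _ ≤ (x : ℝ) ^ (3 / 10 * ε) * Real.exp (-((1 + 7 / 10 * ε) * L)) := by gcongr
      _ = 1 / (x : ℝ) ^ (1 + 4 / 10 * ε) := by
          rw [Real.rpow_def_of_pos hx0, Real.rpow_def_of_pos hx0, ← Real.exp_add, ← hL, one_div, ← Real.exp_neg]
          congr 1
          ring
  filter_upwards [borel hsum, sifted h] with ω hω hs
  filter_upwards [hω] with x hx k hk hkL
  by_contra hcon
  push Not at hcon
  apply hx
  rw [Set.mem_iUnion₂]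
  refine ⟨k, mem_range.2 (by omega), ?_⟩
  rw [hB]
  simp only
  obtain ⟨Q, hQ⟩ : ∃ Q, Q = (Ioc x (x + k)).filter (fun n => n ∈ {m | ω ∈ E m}) := ⟨_, rfl⟩
  have hQc : NN {m | ω ∈ E m} x k = Q.card := by
    rw [hQ]
    unfold NN
    congr
  have hQS : Q ⊆ S x k := by
    intro n hn
    rw [hQ, mem_filter, mem_Ioc] at hn
    rw [hS]
    simp only [mem_filter, mem_Ioc]
    exact ⟨hn.1, fun p hp hpk => hs n hn.2 p hp (hpk.trans (hk.trans (hT (by omega))))⟩
  have hSle : (S x k).card ≤ HH k := by rw [hSc]; exact le_HH x k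
  have hEq : Q = S x k := eq_of_subset_of_card_le hQS (by rw [← hQc]; omega)
  rw [if_pos ⟨hkL, by rw [← hEq, ← hQc]; exact hcon⟩]
  rw [Set.mem_iInter₂]
  intro n hn
  rw [← hEq, hQ, mem_filter] at hn
  exact hn.2

end Pool.Agent.U839.Hl
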